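import Pool.Agent.K3h37.UD.Max

/-!
# Finite extensions of the coefficients
-/

set_option autoImplicit false
set_option linter.unusedSectionVars false

open scoped InnerProductSpace ENNReal Matrix
open Filter Topology

namespace Pool.Agent.K3h37.UD

open Pool.Agent.H80R2
open Pool.Agent.H80R2.BC (L2 GMat vdim IsTr LInv Equi act kerA dk pt vals TorDiv Coef AtR Generic)
open Pool.Agent.H812R3
open Pool.Agent.W656.VA hiding stage1 stage2

variable {ι κ μ G : Type} [Group G] [Fintype ι] [Fintype κ] [Fintype μ]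

open Classical in
/-- the block system of a system with the matrices `M k p g` in place of the coefficients -/
noncomputable def blk (A : GMat κ ι G) (M : κ → ι → G → Matrix μ μ ℂ) : GMat (κ × μ) (ι × μ) G :=
  fun a p => Finsupp.onFinset (A a.1 p.1).support
    (fun g => if A a.1 p.1 g = 0 then 0 else M a.1 p.1 g a.2 p.2) (by
      intro g hg
      rw [Finsupp.mem_support_iff]
      intro h0
      exact hg (if_pos h0))

theorem coef_blk {R : Subring ℂ} {A : GMat κ ι G} {M : κ → ι → G → Matrix μ μ ℂ}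
    (hM : ∀ k p g i j, M k p g i j ∈ R) : Coef R (blk A M) := by
  rintro ⟨k, i⟩ ⟨p, j⟩ g
  show (if A k p g = 0 then (0 : ℂ) else M k p g i j) ∈ R
  split_ifs
  · exact R.zero_mem
  · exact hM _ _ _ _ _

theorem act_blk (A : GMat κ ι G) (M : κ → ι → G → Matrix μ μ ℂ) (x : (ι × μ) × G → ℂ) (k : κ)
    (i : μ) (g : G) : act (blk A M) x (k, i) g =
      (∑ p, ∑ h ∈ (A k p).support, M k p h *ᵥ (fun j => x ((p, j), g * h))) i := by
  classical
  unfold act
  rw [Fintype.sum_prod_type, Finset.sum_apply]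
  refine Finset.sum_congr rfl fun p _ => ?_
  rw [Finset.sum_apply]
  have h1 : ∀ j : μ, (blk A M (k, i) (p, j)).sum (fun h c => c * x ((p, j), g * h)) =
      ∑ h ∈ (A k p).support, M k p h i j * x ((p, j), g * h) := by
    intro j
    unfold blk
    rw [Finsupp.onFinset_sum _ (fun a => zero_mul _)]
    refine Finset.sum_congr rfl fun h hh => ?_
    simp only
    rw [if_neg (Finsupp.mem_support_iff.1 hh)]
  simp only [h1]
  rw [Finset.sum_comm]
  refine Finset.sum_congr rfl fun h _ => ?_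
  rfl

/-- the kernel of the block system on the vectors `y ⊗ ψ` -/
theorem ev_blk (A : GMat κ ι G) (M : κ → ι → G → Matrix μ μ ℂ) {ψ : μ → ℂ} (hψ : ψ ≠ 0)
    (hM : ∀ k p g, M k p g *ᵥ ψ = A k p g • ψ) : kerA (ev ψ (blk A M)) = kerA A := by
  obtain ⟨i0, hi0⟩ : ∃ i0, ψ i0 ≠ 0 := by
    by_contra h
    push Not at h
    exact hψ (funext h)
  have key : ∀ (y : L2 (ι × G)) (k : κ) (i : μ) (g : G),
      act (ev ψ (blk A M)) y (k, i) g = ψ i * act A y k g := by
    intro y k i g
    rw [act_ev, act_blk, Finset.sum_apply]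
    unfold act
    rw [Finset.mul_sum]
    refine Finset.sum_congr rfl fun p _ => ?_
    rw [Finset.sum_apply, Finsupp.sum, Finset.mul_sum]
    refine Finset.sum_congr rfl fun h _ => ?_
    have e1 : (fun j => (op (tp ι G ψ) y) ((p, j), g * h)) = y (p, g * h) • ψ := by
      funext j
      rw [op_apply, act_tp, Pi.smul_apply, smul_eq_mul, mul_comm]
    rw [e1, Matrix.mulVec_smul, hM, Pi.smul_apply, Pi.smul_apply, smul_eq_mul, smul_eq_mul]
    ring
  ext y
  rw [mem_kerA, mem_kerA]
  constructor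
  · intro h k g
    have h1 := h (k, i0) g
    rw [key] at h1
    exact (mul_eq_zero.1 h1).resolve_left hi0
  · rintro h ⟨k, i⟩ g
    rw [key, h k g, mul_zero]

/-- invariance of the kernel of the block system -/
theorem blk_inv (A : GMat κ ι G) (M : κ → ι → G → Matrix μ μ ℂ) (T : (μ → ℂ) →ₗ[ℂ] (μ → ℂ))
    (hTM : ∀ k p g v, T (M k p g *ᵥ v) = M k p g *ᵥ T v) :
    ∀ x ∈ kerA (blk A M), op (sc ι G T) x ∈ kerA (blk A M) := by
  rintro x hx ⟨k, i⟩ g
  rw [act_blk]
  have e1 : ∀ (p : ι) (h : G), (fun j => (op (sc ι G T) x) ((p, j), g * h)) =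
      T (fun j => x ((p, j), g * h)) := by
    intro p h
    funext j
    rw [op_sc]
  have e2 : (∑ p, ∑ h ∈ (A k p).support, M k p h *ᵥ (fun j => (op (sc ι G T) x) ((p, j), g * h))) =
      T (∑ p, ∑ h ∈ (A k p).support, M k p h *ᵥ (fun j => x ((p, j), g * h))) := by
    rw [map_sum]
    refine Finset.sum_congr rfl fun p _ => ?_
    rw [map_sum]
    refine Finset.sum_congr rfl fun h _ => ?_
    rw [e1, hTM]
  have e3 : (∑ p, ∑ h ∈ (A k p).support, M k p h *ᵥ (fun j => x ((p, j), g * h))) = 0 := by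
    funext i
    rw [← act_blk]
    exact hx (k, i) g
  rw [e2, e3, map_zero]
  rfl

/-- **Bounded denominators for block systems.** -/
theorem blk_int (C : (G : Type) → [Group G] → Prop)
    (hfree : ∀ (G : Type) [Group G] (m : ℕ), C G → C (Monoid.Coprod G (FreeGroup (Fin m))))
    (R : Subring ℂ) {d : ℕ}
    (hR : ∀ (G : Type) [Group G], C G → ∀ v : ℝ, Val R G v → ∃ z : ℤ, (d : ℝ) * v = z)
    (hG : C G) (A : GMat κ ι G) (M : κ → ι → G → Matrix μ μ ℂ)
    (hMR : ∀ k p g i j, M k p g i j ∈ R) {ψ : μ → ℂ} (hψ : ψ ≠ 0)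
    (hM : ∀ k p g, M k p g *ᵥ ψ = A k p g • ψ) (T : (μ → ℂ) →ₗ[ℂ] (μ → ℂ))
    (hTM : ∀ k p g v, T (M k p g *ᵥ v) = M k p g *ᵥ T v)
    (hker : ∀ φ, T φ = 0 → φ ∈ Submodule.span ℂ {ψ}) (hψT : T ψ = 0) :
    ∃ m : ℕ, 1 ≤ m ∧ m ≤ Fintype.card μ ∧ ∃ z : ℤ, (d : ℝ) * m * vdim (kerA A) = z := by
  have h1 : fd (blk A M) (Submodule.span ℂ {ψ}) = vdim (kerA A) := by
    rw [fd_span _ hψ, ev_blk A M hψ hM]
  have hne : 1 ≤ Fintype.card μ := by
    rw [Nat.succ_le_iff, Fintype.card_pos_iff]
    by_contra hc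
    rw [not_nonempty_iff] at hc
    exact hψ (Subsingleton.elim _ _)
  rcases (vdim_nonneg (kerA A)).eq_or_lt with h0 | h0
  · exact ⟨1, le_rfl, hne, 0, by rw [← h0]; simp⟩
  · obtain ⟨m, hm1, hm2, z, hz⟩ := break_point (A := blk A M) (d := d) (by
      intro N j hN
      exact hR _ (hfree G _ hG) _ (val_of _ (coef_ct N j (coef_blk hMR))))
      (Φ0 := ⊤) (by rw [pt_top]; exact le_top) T (blk_inv A M T hTM) hψ
      (fun φ _ h => hker φ h) hψT (by rw [h1]; exact h0)
    rw [h1] at hz
    exact ⟨m, hm1, hm2, z, hz⟩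

/-! ### the regular representation of a finite extension -/

section Reg

variable {F : Type*} {L : Type*} [Field F] [Field L] [Algebra F L] [FiniteDimensional F L]
  [Algebra F ℂ] [Algebra L ℂ] [IsScalarTower F L ℂ]

/-- the transposed matrix of multiplication by `x`, with complex entries -/
noncomputable def rg {n : ℕ} (b : Module.Basis (Fin n) F L) (x : L) : Matrix (Fin n) (Fin n) ℂ :=
  fun j i => algebraMap F ℂ (Algebra.leftMulMatrix b x i j)

theorem rg_mulVec {n : ℕ} (b : Module.Basis (Fin n) F L) (x : L) :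
    rg b x *ᵥ (fun i => algebraMap L ℂ (b i)) = algebraMap L ℂ x • fun i => algebraMap L ℂ (b i) := by
  funext j
  show ∑ i, algebraMap F ℂ (Algebra.leftMulMatrix b x i j) * algebraMap L ℂ (b i) = _
  rw [Pi.smul_apply, smul_eq_mul, ← map_mul]
  conv_rhs => rw [← b.sum_repr (x * b j)]
  rw [map_sum]
  refine Finset.sum_congr rfl fun i _ => ?_
  have h1 : Algebra.leftMulMatrix b x i j = b.repr (x * b j) i :=
    Algebra.leftMulMatrix_eq_repr_mul b x i j
  rw [h1, Algebra.smul_def (b.repr (x * b j) i) (b i),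
    map_mul (algebraMap L ℂ) (algebraMap F L (b.repr (x * b j) i)) (b i),
    ← IsScalarTower.algebraMap_apply F L ℂ]

theorem rg_eq {n : ℕ} (b : Module.Basis (Fin n) F L) (x : L) :
    rg b x = ((algebraMap F ℂ).mapMatrix (Algebra.leftMulMatrix b x))ᵀ := rfl

theorem rg_comm {n : ℕ} (b : Module.Basis (Fin n) F L) (x y : L) :
    rg b x * rg b y = rg b y * rg b x := by
  rw [rg_eq, rg_eq, ← Matrix.transpose_mul, ← Matrix.transpose_mul, ← map_mul, ← map_mul,
    ← map_mul, ← map_mul, mul_comm]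

/-- common eigenvectors -/
theorem rg_ker {n : ℕ} (b : Module.Basis (Fin n) F L) {z : L} (hz : IntermediateField.adjoin F {z} = ⊤)
    (φ : Fin n → ℂ) (hφ : rg b z *ᵥ φ = algebraMap L ℂ z • φ) :
    φ ∈ Submodule.span ℂ {fun i => algebraMap L ℂ (b i)} := by
  -- all elements
  have hadd : ∀ x y : L, rg b (x + y) = rg b x + rg b y := by
    intro x y
    rw [rg_eq, rg_eq, rg_eq, map_add, map_add, Matrix.transpose_add]
  have hmul : ∀ x y : L, rg b (x * y) = rg b x * rg b y := by
    intro x y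
    rw [rg_comm, rg_eq, rg_eq, rg_eq, map_mul, map_mul, Matrix.transpose_mul]
  have hmap : ∀ a : F, rg b (algebraMap F L a) = algebraMap F ℂ a • (1 : Matrix (Fin n) (Fin n) ℂ) := by
    intro a
    rw [rg_eq, AlgHom.commutes]
    ext i j
    by_cases h : i = j
    · subst h
      simp [Matrix.algebraMap_matrix_apply]
    · simp [Matrix.algebraMap_matrix_apply, h, Ne.symm h]
  have hall : ∀ x : L, rg b x *ᵥ φ = algebraMap L ℂ x • φ := by
    intro x
    have hint : IsIntegral F z := IsIntegral.of_finite F z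
    have hx' : x ∈ Algebra.adjoin F {z} := by
      rw [← IntermediateField.adjoin_simple_toSubalgebra_of_isAlgebraic hint.isAlgebraic, hz]
      trivial
    induction hx' using Algebra.adjoin_induction with
    | mem x hx =>
      rw [Set.mem_singleton_iff] at hx
      rw [hx, hφ]
    | algebraMap a =>
      rw [hmap, Matrix.smul_mulVec, Matrix.one_mulVec, ← IsScalarTower.algebraMap_apply F L ℂ]
    | add x y _ _ hx hy =>
      rw [hadd, Matrix.add_mulVec, hx, hy, map_add, add_smul]
    | mul x y _ _ hx hy =>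
      rw [hmul, ← Matrix.mulVec_mulVec, hy, Matrix.mulVec_smul, hx, smul_smul, map_mul, mul_comm]
  -- the coordinate
  set u : Fin n → F := fun i => b.repr 1 i with hu
  set c : ℂ := ∑ j, algebraMap F ℂ (u j) * φ j with hc
  rw [Submodule.mem_span_singleton]
  refine ⟨c, ?_⟩
  funext k
  have h1 : ∀ j, ∑ i, algebraMap F ℂ (Algebra.leftMulMatrix b (b k) i j) * φ i =
      algebraMap L ℂ (b k) * φ j := fun j => congrFun (hall (b k)) j
  have h2 : ∑ j, algebraMap F ℂ (u j) *
      ∑ i, algebraMap F ℂ (Algebra.leftMulMatrix b (b k) i j) * φ i = φ k := by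
    simp only [Finset.mul_sum]
    rw [Finset.sum_comm]
    have h3 : ∀ i, ∑ j, algebraMap F ℂ (u j) *
        (algebraMap F ℂ (Algebra.leftMulMatrix b (b k) i j) * φ i) =
        algebraMap F ℂ (b.repr (b k) i) * φ i := by
      intro i
      have h4 : b.repr (b k) i = ∑ j, Algebra.leftMulMatrix b (b k) i j * u j := by
        have h5 := Algebra.leftMulMatrix_mulVec_repr b (b k) 1
        rw [mul_one] at h5
        have h6 := congrFun h5 i
        rw [← h6]
        rfl
      rw [h4, map_sum, Finset.sum_mul]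
      refine Finset.sum_congr rfl fun j _ => ?_
      rw [map_mul]
      ring
    rw [Finset.sum_congr rfl fun i _ => h3 i, Finset.sum_eq_single k]
    · rw [Module.Basis.repr_self, Finsupp.single_eq_same, map_one, one_mul]
    · intro i _ hi
      rw [Module.Basis.repr_self, Finsupp.single_eq_of_ne hi, map_zero, zero_mul]
    · intro h; exact absurd (Finset.mem_univ _) h
  rw [Pi.smul_apply, smul_eq_mul, ← h2, hc, Finset.sum_mul]
  refine Finset.sum_congr rfl fun j _ => ?_
  rw [h1 j]
  ring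

end Reg

end Pool.Agent.K3h37.UD
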