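import Pool.Agent.K3h37.UD.MaxField

/-!
# Kernel dimensions and extensions of the coefficients: transcendental and finite extensions

Let `G` be a group and let `F` be the free group of countable rank. Suppose that the kernel dimensions of
the matrices over `R[G * F]`, `R` a subring of `ℂ`, are exactly the nonnegative multiples of `1 / D` (by
`UniformDenominators` the alternative is that they are dense in `[0, ∞)`; `D` is the least common
multiple of the orders of the finite subgroups if `R[G * F]` satisfies the Atiyah conjecture). Then the
same holds, with the same `D`, for a subfield `K` of `ℂ` which contains `R` and over which all complex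
numbers are algebraic. For a finite extension `L` of any subfield `K` of `ℂ` with this property, the
kernel dimensions over `L[G * F]` are exactly the nonnegative multiples of `1 / (D m)`, for some `m` with
`1 ≤ m ≤ [L : K]`. The same is proved for the class of all groups with a given least common multiple `d`
of the orders of the finite subgroups.

Outline. (1) There is a maximal coefficient ring `K` containing `R` with the common denominator `D`. It
contains every complex number `c` such that `D` times the kernel dimension of `P + c Q` is an integer for
all matrices `P, Q` over `K[G * F]`, so it is a field. (2) If the dimension for `P + z Q` has another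
denominator, then `z` is exceptional: for a suitable cut with generic matrices over the free factor, the
systems satisfied by `(x, z x, z² x, ...)` have a slope filtration in the space of coefficient vectors
whose pieces have a length bounded by the number of steps (semicontinuity and the transfer of helper656
and helper80). The coordinates of a piece, with respect to a minimal separating set of coordinates,
belong to `K`, because a piece of the filtration has dimension with denominator `D` against ALL systems
over `K` (here a second cut is used). Hence `z` satisfies a polynomial equation over `K`. (3) For a finite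
extension `L = K(z)` of degree `e`, a matrix over `L[G * F]` is replaced by the block matrix of the
regular representation; its kernel contains the original kernel as the eigenspace of an operator which
commutes with the system, and the slope filtration gives the denominator `D m`, `1 ≤ m ≤ e`. -/

set_option autoImplicit false

namespace Pool.Agent.Results.MP_54e5d7_al.AlgebraicExtensions

/-- The kernel of right multiplication by the matrix `A` over the complex group ring on row vectors
of length `m` over `ℓ²(G)`: all square-summable `x` with `x A = 0`. -/
def kernel {G : Type} [Group G] {m n : ℕ} (A : Matrix (Fin m) (Fin n) (G →₀ ℂ)) :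
    Set (lp (fun _ : Fin m × G => ℂ) 2) :=
  {x | ∀ (j : Fin n) (g : G),
    ∑ i : Fin m, (A i j).sum (fun h c => x (i, g * h⁻¹) * c) = 0}

open Classical in
/-- The von Neumann dimension of this kernel: the sum over `i` of one minus the squared distance
from the basis vector at `(i, 1)` to the kernel, that is, the trace of the projection onto the
kernel. -/
noncomputable def kerDim {G : Type} [Group G] {m n : ℕ} (A : Matrix (Fin m) (Fin n) (G →₀ ℂ)) : ℝ :=
  ∑ i : Fin m, (1 - (Metric.infDist
    (lp.single 2 (i, (1 : G)) (1 : ℂ) : lp (fun _ : Fin m × G => ℂ) 2) (kernel A)) ^ 2)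

/-- The orders of the finite subgroups of `G` are bounded and `d` is their least common
multiple. -/
def IsLcm (G : Type) [Group G] (d : ℕ) : Prop :=
  (∃ N : ℕ, ∀ H : Subgroup G, Finite H → Nat.card H ≤ N) ∧
    (∀ H : Subgroup G, Finite H → Nat.card H ∣ d) ∧
    ∀ e : ℕ, (∀ H : Subgroup G, Finite H → Nat.card H ∣ e) → d ∣ e

/-- The kernel dimensions of all the matrices over `R[G]`. -/
def Dims (R : Subring ℂ) (G : Type) [Group G] : Set ℝ :=
  {r | ∃ (m n : ℕ) (A : Matrix (Fin m) (Fin n) (G →₀ ℂ)), (∀ i j g, A i j g ∈ R) ∧ kerDim A = r}

/-- The nonnegative multiples of `1 / D`. -/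
def Multiples (D : ℕ) : Set ℝ := {r | ∃ k : ℕ, r = (k : ℝ) / D}


theorem dims_eq (R : Subring ℂ) (G : Type) [Group G] : Dims R G = Pool.Agent.K3h37.UD.VG R G := by
  have hk : ∀ (m n : ℕ) (A : Matrix (Fin m) (Fin n) (G →₀ ℂ)),
      kerDim A = Pool.Agent.W656.VA.kerDim A := fun _ _ _ => rfl
  ext r
  constructor
  · rintro ⟨m, n, A, hA, rfl⟩
    rw [hk]
    exact Pool.Agent.W656.VA.val_kerDim A hA
  · intro h
    obtain ⟨m, n, A, hA, hr⟩ := Pool.Agent.W656.VA.exists_kerDim (show
      Pool.Agent.W656.VA.Val R G r from h)
    exact ⟨m, n, A, hA, by rw [hk]; exact hr⟩

/-- **Transcendental and finite extensions of the coefficients.** Kernel dimension means the von Neumann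
dimension of the kernel of a matrix over a group ring; `F` is the free group with generators indexed by
`ℕ`.

1. If the kernel dimensions over `R[G * F]`, `R` a subring of `ℂ`, are exactly the nonnegative multiples
   of `1 / D`, then this is so over `K[G * F]` for some subfield `K` of `ℂ` which contains `R` and over
   which all complex numbers are algebraic.
2. Let `L` be a finite extension of a subfield `K` of `ℂ`. If the kernel dimensions over `K[G * F]` are
   exactly the nonnegative multiples of `1 / D`, then those over `L[G * F]` are exactly the nonnegative
   multiples of `1 / (D m)`, for some `m` with `1 ≤ m ≤ [L : K]`.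
3. and 4. The same for all the groups with the least common multiple `d` together, in the place of the
   group `G * F`. -/
theorem result :
    (∀ (R : Subring ℂ) (G : Type) [Group G] (D : ℕ), 0 < D →
      Dims R (Monoid.Coprod G (FreeGroup ℕ)) = Multiples D →
      ∃ K : Subfield ℂ, R ≤ K.toSubring ∧ (∀ z : ℂ, IsAlgebraic K z) ∧
        Dims K.toSubring (Monoid.Coprod G (FreeGroup ℕ)) = Multiples D) ∧
    (∀ (K : Subfield ℂ) (L : IntermediateField K ℂ) [FiniteDimensional K L] (G : Type) [Group G]
      (D : ℕ), 0 < D → Dims K.toSubring (Monoid.Coprod G (FreeGroup ℕ)) = Multiples D →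
      ∃ m : ℕ, 1 ≤ m ∧ m ≤ Module.finrank K L ∧
        Dims L.toSubfield.toSubring (Monoid.Coprod G (FreeGroup ℕ)) = Multiples (D * m)) ∧
    (∀ (R : Subring ℂ) (d D : ℕ), 0 < d → 0 < D →
      {v : ℝ | ∃ (G : Type) (_ : Group G), IsLcm G d ∧ v ∈ Dims R G} = Multiples D →
      ∃ K : Subfield ℂ, R ≤ K.toSubring ∧ (∀ z : ℂ, IsAlgebraic K z) ∧
        {v : ℝ | ∃ (G : Type) (_ : Group G), IsLcm G d ∧ v ∈ Dims K.toSubring G} = Multiples D) ∧
    (∀ (K : Subfield ℂ) (L : IntermediateField K ℂ) [FiniteDimensional K L] (d D : ℕ), 0 < d → 0 < D →
      {v : ℝ | ∃ (G : Type) (_ : Group G), IsLcm G d ∧ v ∈ Dims K.toSubring G} = Multiples D →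
      ∃ m : ℕ, 1 ≤ m ∧ m ≤ Module.finrank K L ∧
        {v : ℝ | ∃ (G : Type) (_ : Group G), IsLcm G d ∧ v ∈ Dims L.toSubfield.toSubring G} =
          Multiples (D * m)) := by
  simp only [dims_eq]
  exact ⟨fun R G _ D hD h => Pool.Agent.K3h37.UD.one_field hD h,
    fun K L _ G _ D hD h => Pool.Agent.K3h37.UD.one_ext K L hD h,
    fun R d D hd hD h => Pool.Agent.K3h37.UD.class_field hd hD h,
    fun K L _ d D hd hD h => Pool.Agent.K3h37.UD.class_ext hd K L hD h⟩

end Pool.Agent.Results.MP_54e5d7_al.AlgebraicExtensions
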