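import Pool.Agent.K3h37.UD.Hn

/-!
# The coordinates of the pieces of the slope filtration
-/

set_option autoImplicit false
set_option linter.unusedSectionVars false

open scoped InnerProductSpace ENNReal
open Filter Topology

namespace Pool.Agent.K3h37.UD

open Pool.Agent.H80R2
open Pool.Agent.H80R2.BC (L2 GMat vdim IsTr LInv Equi act kerA dk pt vals TorDiv Coef AtR Generic)
open Pool.Agent.H812R3
open Pool.Agent.W656.VA hiding stage1 stage2

/-! ### linear algebra -/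

/-- A minimal separating set of coordinates and the dual vectors. -/
theorem exists_coords {μ : Type} [DecidableEq μ] (F : Submodule ℂ (μ → ℂ)) (J : Finset μ)
    (hJ : ∀ φ ∈ F, (∀ i ∈ J, φ i = 0) → φ = 0) :
    ∃ J' : Finset μ, J' ⊆ J ∧ (∀ φ ∈ F, (∀ i ∈ J', φ i = 0) → φ = 0) ∧
      ∃ ψ : μ → (μ → ℂ), ∀ k ∈ J', ψ k ∈ F ∧ ψ k k = 1 ∧ ∀ i ∈ J', i ≠ k → ψ k i = 0 := by
  classical
  have hex : ∃ n : ℕ, ∃ J' : Finset μ, J' ⊆ J ∧ (∀ φ ∈ F, (∀ i ∈ J', φ i = 0) → φ = 0) ∧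
      J'.card = n := ⟨_, J, subset_rfl, hJ, rfl⟩
  obtain ⟨J', h1, h2, h3⟩ := Nat.find_spec hex
  refine ⟨J', h1, h2, ?_⟩
  have h4 : ∀ k, ∃ ψ : μ → ℂ, k ∈ J' → ψ ∈ F ∧ ψ k = 1 ∧ ∀ i ∈ J', i ≠ k → ψ i = 0 := by
    intro k
    by_cases hk : k ∈ J'
    · have h5 : ¬ ∀ φ ∈ F, (∀ i ∈ J'.erase k, φ i = 0) → φ = 0 := by
        intro hc
        have h6 := Nat.find_min' hex ⟨J'.erase k, (Finset.erase_subset _ _).trans h1, hc, rfl⟩
        rw [← h3] at h6
        have h7 := Finset.card_erase_lt_of_mem hk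
        omega
      push Not at h5
      obtain ⟨φ, hφ, h6, h7⟩ := h5
      have h8 : φ k ≠ 0 := by
        intro h0
        apply h7
        apply h2 φ hφ
        intro i hi
        by_cases hik : i = k
        · rw [hik]; exact h0
        · exact h6 i (Finset.mem_erase.2 ⟨hik, hi⟩)
      refine ⟨(φ k)⁻¹ • φ, fun _ => ⟨F.smul_mem _ hφ, ?_, ?_⟩⟩
      · rw [Pi.smul_apply, smul_eq_mul, inv_mul_cancel₀ h8]
      · intro i hi hik
        rw [Pi.smul_apply, smul_eq_mul, h6 i (Finset.mem_erase.2 ⟨hik, hi⟩), mul_zero]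
    · exact ⟨0, fun h => absurd h hk⟩
  choose ψ hψ using h4
  exact ⟨ψ, hψ⟩

theorem coords_expand {μ : Type} [DecidableEq μ] {F : Submodule ℂ (μ → ℂ)} {J' : Finset μ}
    (h2 : ∀ φ ∈ F, (∀ i ∈ J', φ i = 0) → φ = 0) {ψ : μ → (μ → ℂ)}
    (hψ : ∀ k ∈ J', ψ k ∈ F ∧ ψ k k = 1 ∧ ∀ i ∈ J', i ≠ k → ψ k i = 0) {φ : μ → ℂ} (hφ : φ ∈ F) :
    φ = ∑ k ∈ J', φ k • ψ k := by
  have h3 : φ - ∑ k ∈ J', φ k • ψ k ∈ F :=
    F.sub_mem hφ (F.sum_mem fun k hk => F.smul_mem _ (hψ k hk).1)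
  have h4 := h2 _ h3 (by
    intro i hi
    rw [Pi.sub_apply, Finset.sum_apply, Finset.sum_eq_single i]
    · rw [Pi.smul_apply, smul_eq_mul, (hψ i hi).2.1, mul_one, sub_self]
    · intro k hk hki
      rw [Pi.smul_apply, smul_eq_mul, (hψ k hk).2.2 i hi hki.symm, mul_zero]
    · intro h; exact absurd hi h)
  exact sub_eq_zero.1 h4

theorem coords_line {μ : Type} [DecidableEq μ] {F : Submodule ℂ (μ → ℂ)} {J' : Finset μ}
    (h2 : ∀ φ ∈ F, (∀ i ∈ J', φ i = 0) → φ = 0) {ψ : μ → (μ → ℂ)}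
    (hψ : ∀ k ∈ J', ψ k ∈ F ∧ ψ k k = 1 ∧ ∀ i ∈ J', i ≠ k → ψ k i = 0) {k : μ} (hk : k ∈ J')
    (φ : μ → ℂ) : (φ ∈ F ∧ ∀ i ∈ J'.erase k, φ i = 0) ↔ φ ∈ Submodule.span ℂ {ψ k} := by
  rw [Submodule.mem_span_singleton]
  constructor
  · rintro ⟨hφ, h0⟩
    refine ⟨φ k, ?_⟩
    have h3 := coords_expand h2 hψ hφ
    conv_rhs => rw [h3]
    rw [Finset.sum_eq_single k]
    · intro i hi hik
      rw [h0 i (Finset.mem_erase.2 ⟨hik, hi⟩), zero_smul]
    · intro h; exact absurd hk h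
  · rintro ⟨c, rfl⟩
    refine ⟨F.smul_mem _ (hψ k hk).1, fun i hi => ?_⟩
    rw [Finset.mem_erase] at hi
    rw [Pi.smul_apply, smul_eq_mul, (hψ k hk).2.2 i hi.2 hi.1, mul_zero]

/-! ### the systems -/

variable {ι κ ι' κ' μ ν G : Type} [Group G] [Fintype ι] [Fintype κ] [Fintype κ'] [Fintype ι']
  [Fintype μ] [Fintype ν]

/-- `C` and `R` and the denominator `d`: integrality along all pencils at `c` -/
def PInt (C : (G : Type) → [Group G] → Prop) (R : Subring ℂ) (d : ℕ) (c : ℂ) : Prop :=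
  ∀ (G : Type) [Group G], C G → ∀ (κ ι : Type) [Fintype κ] [Fintype ι] (M0 M1 : GMat κ ι G),
    Coef R M0 → Coef R M1 → ∃ z : ℤ, (d : ℝ) * kz M0 M1 c = z

theorem fd_push {G' : Type} [Group G'] (f : G →* G') (hf : Function.Injective f)
    (A : GMat κ (ι × μ) G) (Φ : Submodule ℂ (μ → ℂ)) : fd (BC.push f A) Φ = fd A Φ := by
  rw [← fd_eq_push f hf A Φ]
  unfold fd
  congr 1
  ext x
  rw [mem_push_cs f hf A Φ x]
  rfl

theorem mx_push {G' : Type} [Group G'] (f : G →* G') (hf : Function.Injective f)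
    {A : GMat κ (ι × μ) G} {θ : ℝ} {F : Submodule ℂ (μ → ℂ)} (h : IsMx A θ F) :
    IsMx (BC.push f A) θ F := by
  intro X
  rw [fd_push f hf, fd_push f hf]
  exact h X

theorem kz_push {G' : Type} [Group G'] (f : G →* G') (hf : Function.Injective f)
    (M0 M1 : GMat κ ι G) (c : ℂ) : kz (BC.push f M0) (BC.push f M1) c = kz M0 M1 c := by
  unfold kz
  rw [← vdim_push f hf]
  congr 2
  funext k i
  unfold BC.pen BC.push
  rw [Finsupp.mapDomain_add, Finsupp.mapDomain_smul]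

open Classical in
/-- the pencil as a system in two coordinates -/
noncomputable def two (i1 i2 : μ) (M0 M1 : GMat κ' ι' G) : GMat κ' (ι' × μ) G := fun k p =>
  (if p.2 = i1 then M0 k p.1 else 0) + (if p.2 = i2 then M1 k p.1 else 0)

theorem act_two (i1 i2 : μ) (M0 M1 : GMat κ' ι' G) (x : (ι' × μ) × G → ℂ) (k : κ') (g : G) :
    act (two i1 i2 M0 M1) x k g =
      act M0 (fun q => x ((q.1, i1), q.2)) k g + act M1 (fun q => x ((q.1, i2), q.2)) k g := by
  classical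
  unfold act two
  rw [Fintype.sum_prod_type, ← Finset.sum_add_distrib]
  refine Finset.sum_congr rfl fun p _ => ?_
  have h1 : ∀ i, ((if (p, i).2 = i1 then M0 k (p, i).1 else 0) +
      (if (p, i).2 = i2 then M1 k (p, i).1 else 0) : G →₀ ℂ).sum (fun h c => c * x ((p, i), g * h))
      = (if i = i1 then (M0 k p).sum (fun h c => c * x ((p, i), g * h)) else 0) +
        (if i = i2 then (M1 k p).sum (fun h c => c * x ((p, i), g * h)) else 0) := by
    intro i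
    rw [Finsupp.sum_add_index' (by simp) (by intros; ring)]
    congr 1
    · split_ifs <;> simp
    · split_ifs <;> simp
  rw [Finset.sum_congr rfl fun i _ => h1 i, Finset.sum_add_distrib]
  simp

theorem coef_two {R : Subring ℂ} (i1 i2 : μ) {M0 M1 : GMat κ' ι' G} (h0 : Coef R M0)
    (h1 : Coef R M1) : Coef R (two i1 i2 M0 M1) := by
  classical
  intro k p g
  unfold two
  rw [Finsupp.add_apply]
  refine R.add_mem ?_ ?_
  · split_ifs
    · exact h0 _ _ _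
    · exact R.zero_mem
  · split_ifs
    · exact h1 _ _ _
    · exact R.zero_mem

open Classical in
/-- projection to the coordinates in `S` -/
noncomputable def pj (S : Finset μ) : (μ → ℂ) →ₗ[ℂ] (μ → ℂ) where
  toFun φ := fun i => if i ∈ S then φ i else 0
  map_add' φ ψ := by
    funext i
    simp only [Pi.add_apply]
    split_ifs <;> simp
  map_smul' c φ := by
    funext i
    simp only [Pi.smul_apply, RingHom.id_apply]
    split_ifs <;> simp

theorem pj_eq_zero (S : Finset μ) (φ : μ → ℂ) : pj S φ = 0 ↔ ∀ i ∈ S, φ i = 0 := by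
  classical
  constructor
  · intro h i hi
    have := congrFun h i
    change (if i ∈ S then φ i else 0) = 0 at this
    rwa [if_pos hi] at this
  · intro h
    funext i
    change (if i ∈ S then φ i else 0) = 0
    split_ifs with hi
    · exact h i hi
    · rfl

theorem coef_pj {R : Subring ℂ} (S : Finset μ) : Coef R (sc ι' G (pj S)) := by
  classical
  intro a p g
  unfold sc
  split_ifs
  · apply coef_single
    change (if a.2 ∈ S then (Pi.single p.2 (1 : ℂ) : μ → ℂ) a.2 else 0) ∈ R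
    split_ifs
    · rw [Pi.single_apply]
      split_ifs
      · exact R.one_mem
      · exact R.zero_mem
    · exact R.zero_mem
  · exact R.zero_mem

theorem mem_kerA_sc (L : (μ → ℂ) →ₗ[ℂ] (ν → ℂ)) (x : L2 ((ι' × μ) × G)) :
    x ∈ kerA (sc ι' G L) ↔ ∀ p g, L (fun i => x ((p, i), g)) = 0 := by
  rw [mem_kerA]
  constructor
  · intro h p g
    funext n
    rw [← act_sc]
    exact h (p, n) g
  · rintro h ⟨p, n⟩ g
    rw [act_sc, h p g]
    rfl

/-- a piece and a line cut out by coordinate conditions: the pencil at the slope of the line -/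
theorem fd_line (F : Submodule ℂ (μ → ℂ)) (S : Finset μ) {ψ : μ → ℂ} (hψ : ψ ≠ 0)
    (hS : ∀ φ, (φ ∈ F ∧ ∀ i ∈ S, φ i = 0) ↔ φ ∈ Submodule.span ℂ {ψ}) {i1 i2 : μ} {c : ℂ}
    (h1 : ψ i1 = 1) (h2 : ψ i2 = c) (M0 M1 : GMat κ' ι' G) :
    fd (BC.stack (two i1 i2 M0 M1) (sc ι' G (pj S))) F = kz M0 M1 c := by
  have e1 : fd (BC.stack (two i1 i2 M0 M1) (sc ι' G (pj S))) F =
      fd (two i1 i2 M0 M1) (Submodule.span ℂ {ψ}) := by
    unfold fd
    congr 1
    ext x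
    rw [kerA_stack, Submodule.mem_inf, Submodule.mem_inf, Submodule.mem_inf, mem_kerA_sc, mem_pt,
      mem_pt]
    constructor
    · rintro ⟨⟨h3, h4⟩, h5⟩
      exact ⟨h3, fun p g => (hS _).1 ⟨h5 p g, (pj_eq_zero S _).1 (h4 p g)⟩⟩
    · rintro ⟨h3, h4⟩
      exact ⟨⟨h3, fun p g => (pj_eq_zero S _).2 ((hS _).2 (h4 p g)).2⟩, fun p g => ((hS _).2 (h4 p g)).1⟩
  rw [e1, fd_span _ hψ]
  unfold kz
  congr 1
  ext y
  rw [mem_kerA, mem_kerA]
  have key : ∀ k g, act (ev ψ (two i1 i2 M0 M1)) y k g = act (BC.pen M0 M1 c) y k g := by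
    intro k g
    rw [act_ev, act_two, act_pen]
    have e2 : (fun q : ι' × G => op (tp ι' G ψ) y ((q.1, i1), q.2)) = fun q => y q := by
      funext q
      rw [op_apply, act_tp, h1, one_mul]
    have e3 : (fun q : ι' × G => op (tp ι' G ψ) y ((q.1, i2), q.2)) = c • (fun q => y q) := by
      funext q
      rw [op_apply, act_tp, h2]
      rfl
    rw [e2, e3, BC.act_smul]
  constructor
  · intro h k g
    rw [← key]
    exact h k g
  · intro h k g
    rw [key]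
    exact h k g

/-- **The coordinates of a piece.** -/
theorem coord_pint (C : (G : Type) → [Group G] → Prop)
    (hfree : ∀ (G : Type) [Group G] (m : ℕ), C G → C (Monoid.Coprod G (FreeGroup (Fin m))))
    (hjoin : ∀ (G G' : Type) [Group G] [Group G'], C G → C G' → ∃ (Γ : Type) (_ : Group Γ), C Γ ∧
      (∃ f : G →* Γ, Function.Injective f) ∧ ∃ f : G' →* Γ, Function.Injective f)
    (R : Subring ℂ) {d : ℕ}
    (hR : ∀ (G : Type) [Group G], C G → ∀ v : ℝ, Val R G v → ∃ z : ℤ, (d : ℝ) * v = z)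
    (hG : C G) {A : GMat κ (ι × μ) G} (hA : Coef R A) {F : Submodule ℂ (μ → ℂ)} {θ0 θ1 : ℝ}
    (h0 : 0 ≤ θ0) (h01 : θ0 < θ1)
    (hF : ∀ N j : ℕ, 0 < N → θ0 < (j : ℝ) / N → (j : ℝ) / N < θ1 → IsMx A ((j : ℝ) / N) F)
    (S : Finset μ) {ψ : μ → ℂ} (hψ : ψ ≠ 0)
    (hS : ∀ φ, (φ ∈ F ∧ ∀ i ∈ S, φ i = 0) ↔ φ ∈ Submodule.span ℂ {ψ}) {i1 i2 : μ} {c : ℂ}
    (h1 : ψ i1 = 1) (h2 : ψ i2 = c) : PInt C R d c := by
  intro G' _ hG' κ' ι' _ _ M0 M1 hM0 hM1
  obtain ⟨Γ, _, hΓ, ⟨f, hf⟩, ⟨f', hf'⟩⟩ := hjoin G G' hG hG'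
  rw [← kz_push f' hf' M0 M1 c, ← fd_line F S hψ hS h1 h2]
  refine hn_int C hfree R hR hΓ (A := BC.push f A) (coef_push f A hA) h0 h01
    (fun N j hN g1 g2 => mx_push f hf (hF N j hN g1 g2)) ?_
  exact coef_stack (coef_two i1 i2 (coef_push f' M0 hM0) (coef_push f' M1 hM1)) (coef_pj S)

end Pool.Agent.K3h37.UD
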