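import Pool.Agent.K3h37.UD.Alg

/-!
# Finite extensions of the maximal coefficient ring
-/

set_option autoImplicit false
set_option linter.unusedSectionVars false

open scoped InnerProductSpace ENNReal Matrix
open Filter Topology

namespace Pool.Agent.K3h37.UD

open Pool.Agent.H80R2
open Pool.Agent.H80R2.BC (L2 GMat vdim IsTr LInv Equi act kerA dk pt vals TorDiv Coef AtR Generic)
open Pool.Agent.H812R3
open Pool.Agent.W656.VA hiding stage1 stage2

/-- **Coefficients in a finite extension.** -/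
theorem ext_int (C : (G : Type) → [Group G] → Prop)
    (hfree : ∀ (G : Type) [Group G] (m : ℕ), C G → C (Monoid.Coprod G (FreeGroup (Fin m))))
    (K : Subring ℂ) {d : ℕ}
    (hK : ∀ (G : Type) [Group G], C G → ∀ v : ℝ, Val K G v → ∃ z : ℤ, (d : ℝ) * v = z)
    (F : Subfield ℂ) (hF : ∀ x ∈ F, x ∈ K) (L : IntermediateField F ℂ) [FiniteDimensional F L]
    (G : Type) [Group G] (hG : C G) (v : ℝ) (hv : Val L.toSubfield.toSubring G v) :
    ∃ m : ℕ, 1 ≤ m ∧ m ≤ Module.finrank F L ∧ ∃ z : ℤ, (d : ℝ) * m * v = z := by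
  obtain ⟨m, n, A, hA, rfl⟩ := hv
  have hA' : ∀ k p g, A k p g ∈ L := fun k p g => hA k p g
  obtain ⟨z, hz⟩ := Field.exists_primitive_element F L
  set b := Module.finBasis F L with hb
  have hpos : 0 < Module.finrank F L := Module.finrank_pos
  have hβ : (fun i => algebraMap L ℂ (b i)) ≠ 0 := by
    intro h
    have h1 := congrFun h ⟨0, hpos⟩
    simp only [Pi.zero_apply, map_eq_zero] at h1
    exact b.ne_zero _ h1
  have h := blk_int C hfree K hK hG A (fun k p g => rg b ⟨A k p g, hA' k p g⟩) (by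
      intro k p g i j
      exact hF _ (Algebra.leftMulMatrix b (⟨A k p g, hA' k p g⟩ : L) j i).2) hβ (by
      intro k p g
      rw [rg_mulVec]
      rfl) (Matrix.mulVecLin (rg b z) - (algebraMap L ℂ z) • LinearMap.id) (by
      intro k p g v
      rw [LinearMap.sub_apply, LinearMap.sub_apply, LinearMap.smul_apply, LinearMap.smul_apply,
        LinearMap.id_apply, LinearMap.id_apply, Matrix.mulVecLin_apply, Matrix.mulVecLin_apply,
        Matrix.mulVec_mulVec, Matrix.mulVec_sub, Matrix.mulVec_mulVec, Matrix.mulVec_smul, rg_comm])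
    (by
      intro φ hφ
      apply rg_ker b hz
      rw [LinearMap.sub_apply, LinearMap.smul_apply, LinearMap.id_apply, Matrix.mulVecLin_apply,
        sub_eq_zero] at hφ
      exact hφ)
    (by
      rw [LinearMap.sub_apply, LinearMap.smul_apply, LinearMap.id_apply, Matrix.mulVecLin_apply,
        sub_eq_zero, rg_mulVec])
  rw [Fintype.card_fin] at h
  exact h

theorem val_mono {R R' : Subring ℂ} (h : R ≤ R') {G : Type} [Group G] {v : ℝ} (hv : Val R G v) :
    Val R' G v := by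
  obtain ⟨m, n, A, hA, rfl⟩ := hv
  exact ⟨m, n, A, fun k p g => h (hA k p g), rfl⟩

/-- **Finitely many additional coefficients.** -/
theorem final (C : (G : Type) → [Group G] → Prop)
    (hfree : ∀ (G : Type) [Group G] (m : ℕ), C G → C (Monoid.Coprod G (FreeGroup (Fin m))))
    (hjoin : ∀ (G G' : Type) [Group G] [Group G'], C G → C G' → ∃ (Γ : Type) (_ : Group Γ), C Γ ∧
      (∃ f : G →* Γ, Function.Injective f) ∧ ∃ f : G' →* Γ, Function.Injective f)
    (R : Subring ℂ) {d : ℕ} (hd : 0 < d)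
    (hR : ∀ (G : Type) [Group G], C G → ∀ v : ℝ, Val R G v → ∃ z : ℤ, (d : ℝ) * v = z)
    (S : Finset ℂ) : ∃ (R' : Subring ℂ) (e : ℕ), R ≤ R' ∧ (∀ s ∈ S, s ∈ R') ∧ 1 ≤ e ∧
      ∀ (G : Type) [Group G], C G → ∀ v : ℝ, Val R' G v →
        ∃ m : ℕ, 1 ≤ m ∧ m ≤ e ∧ ∃ z : ℤ, (d : ℝ) * m * v = z := by
  obtain ⟨K, hRK, hK, hmax⟩ := exists_max C R hR
  have hinv : ∀ x ∈ K, x⁻¹ ∈ K := by
    intro x hx
    by_cases h0 : x = 0
    · rw [h0, inv_zero]; exact K.zero_mem
    · exact hmax _ (pint_inv C K hK hx h0)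
  set F : Subfield ℂ := toF K hinv with hFdef
  have hF : ∀ x, x ∈ F ↔ x ∈ K := fun x => mem_toF K hinv x
  have halg := alg_over C hfree hjoin K hd hK hmax F hF
  set L : IntermediateField F ℂ := IntermediateField.adjoin F (S : Set ℂ) with hL
  haveI : FiniteDimensional F L := IntermediateField.finiteDimensional_adjoin
    (fun x _ => (halg x).isIntegral)
  refine ⟨L.toSubfield.toSubring, Module.finrank F L, ?_, ?_, Module.finrank_pos, ?_⟩
  · intro x hx
    have h1 : algebraMap F ℂ ⟨x, (hF x).2 (hRK hx)⟩ ∈ L := L.algebraMap_mem _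
    exact h1
  · intro s hs
    exact IntermediateField.subset_adjoin F (S : Set ℂ) hs
  · intro G _ hG v hv
    exact ext_int C hfree K hK F (fun x hx => (hF x).1 hx) L G hG v hv

/-- bounded denominators -/
theorem final_bdd (C : (G : Type) → [Group G] → Prop)
    (hfree : ∀ (G : Type) [Group G] (m : ℕ), C G → C (Monoid.Coprod G (FreeGroup (Fin m))))
    (hjoin : ∀ (G G' : Type) [Group G] [Group G'], C G → C G' → ∃ (Γ : Type) (_ : Group Γ), C Γ ∧
      (∃ f : G →* Γ, Function.Injective f) ∧ ∃ f : G' →* Γ, Function.Injective f)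
    (R : Subring ℂ) {d : ℕ} (hd : 0 < d)
    (hR : ∀ (G : Type) [Group G], C G → ∀ v : ℝ, Val R G v → ∃ z : ℤ, (d : ℝ) * v = z)
    (S : Finset ℂ) : ∃ N : ℕ, 0 < N ∧ ∀ (G : Type) [Group G], C G → ∀ v : ℝ,
      Val (Subring.closure ((R : Set ℂ) ∪ S)) G v → ∃ z : ℤ, (N : ℝ) * v = z := by
  obtain ⟨R', e, h1, h2, he, h3⟩ := final C hfree hjoin R hd hR S
  refine ⟨d * e.factorial, Nat.mul_pos hd (Nat.factorial_pos e), ?_⟩
  intro G _ hG v hv
  have hle : Subring.closure ((R : Set ℂ) ∪ S) ≤ R' := by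
    rw [Subring.closure_le]
    rintro x (hx | hx)
    · exact h1 hx
    · exact h2 x hx
  obtain ⟨m, hm1, hm2, z, hz⟩ := h3 G hG v (val_mono hle hv)
  obtain ⟨c, hc⟩ := Nat.dvd_factorial hm1 hm2
  refine ⟨c * z, ?_⟩
  rw [hc]
  push_cast
  rw [← hz]
  ring

/-- rationality over all complex numbers -/
theorem final_rat (C : (G : Type) → [Group G] → Prop)
    (hfree : ∀ (G : Type) [Group G] (m : ℕ), C G → C (Monoid.Coprod G (FreeGroup (Fin m))))
    (hjoin : ∀ (G G' : Type) [Group G] [Group G'], C G → C G' → ∃ (Γ : Type) (_ : Group Γ), C Γ ∧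
      (∃ f : G →* Γ, Function.Injective f) ∧ ∃ f : G' →* Γ, Function.Injective f)
    (R : Subring ℂ) {d : ℕ} (hd : 0 < d)
    (hR : ∀ (G : Type) [Group G], C G → ∀ v : ℝ, Val R G v → ∃ z : ℤ, (d : ℝ) * v = z)
    (G : Type) [Group G] (hG : C G) (v : ℝ) (hv : Val ⊤ G v) : ∃ q : ℚ, v = q := by
  obtain ⟨m, n, A, -, rfl⟩ := hv
  obtain ⟨T, hT1, -⟩ := coef_finset A
  obtain ⟨N, hN, h⟩ := final_bdd C hfree hjoin R hd hR T
  obtain ⟨z, hz⟩ := h G hG _ ⟨m, n, A, by
    intro k p g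
    by_cases h0 : A k p g = 0
    · rw [h0]; exact Subring.zero_mem _
    · exact Subring.subset_closure (Or.inr (hT1 k p g h0)), rfl⟩
  refine ⟨(z : ℚ) / N, ?_⟩
  have hN' : (N : ℝ) ≠ 0 := by exact_mod_cast hN.ne'
  push_cast
  field_simp
  linarith

end Pool.Agent.K3h37.UD
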