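import Pool.Agent.K3h37.UD.Rat

/-!
# Pieces of the slope filtration and arbitrary systems

If `F` is the maximizer of `fd A Φ - θ dim Φ` for all `θ` in an interval, then `fd B F` has the denominator
of the class for ALL systems `B`.
-/

set_option autoImplicit false
set_option linter.unusedSectionVars false

open scoped InnerProductSpace ENNReal
open Filter Topology

namespace Pool.Agent.K3h37.UD

open Pool.Agent.H80R2
open Pool.Agent.H80R2.BC (L2 GMat vdim IsTr LInv Equi act kerA dk pt vals TorDiv Coef AtR Generic)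
open Pool.Agent.H812R3
open Pool.Agent.W656.VA hiding stage1 stage2

theorem inj_b1 {ι ι' μ G : Type} :
    Function.Injective (fun p : (ι × μ) × G => (((Sum.inl p.1.1 : ι ⊕ ι'), p.1.2), p.2)) := by
  rintro ⟨⟨a, b⟩, c⟩ ⟨⟨a', b'⟩, c'⟩ h
  simpa using h

theorem inj_b2 {ι ι' μ G : Type} :
    Function.Injective (fun p : (ι' × μ) × G => (((Sum.inr p.1.1 : ι ⊕ ι'), p.1.2), p.2)) := by
  rintro ⟨⟨a, b⟩, c⟩ ⟨⟨a', b'⟩, c'⟩ h
  simpa using h

/-- first part -/
noncomputable def b1 (ι ι' μ G : Type) : L2 (((ι ⊕ ι') × μ) × G) →L[ℂ] L2 ((ι × μ) × G) :=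
  KP.pull (fun p : (ι × μ) × G => (((Sum.inl p.1.1 : ι ⊕ ι'), p.1.2), p.2)) inj_b1

/-- second part -/
noncomputable def b2 (ι ι' μ G : Type) : L2 (((ι ⊕ ι') × μ) × G) →L[ℂ] L2 ((ι' × μ) × G) :=
  KP.pull (fun p : (ι' × μ) × G => (((Sum.inr p.1.1 : ι ⊕ ι'), p.1.2), p.2)) inj_b2

variable {ι κ ι' κ' μ ν G : Type} [Group G] [Fintype ι] [Fintype κ] [Fintype κ'] [Fintype ι']
  [Fintype μ] [Fintype ν]

/-! ### direct sums of systems -/

/-- direct sum of two systems with the same second index -/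
def bm (A : GMat κ (ι × μ) G) (B : GMat κ' (ι' × μ) G) : GMat (κ ⊕ κ') ((ι ⊕ ι') × μ) G :=
  Sum.elim (fun k p => Sum.elim (fun q => A k (q, p.2)) (fun _ => 0) p.1)
    (fun k p => Sum.elim (fun _ => 0) (fun q => B k (q, p.2)) p.1)

theorem coef_bm {R : Subring ℂ} {A : GMat κ (ι × μ) G} {B : GMat κ' (ι' × μ) G} (hA : Coef R A)
    (hB : Coef R B) : Coef R (bm A B) := by
  rintro (k | k) ⟨q | q, i⟩ g
  · exact hA _ _ _
  · exact R.zero_mem
  · exact R.zero_mem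
  · exact hB _ _ _

theorem mem_bm_iff (A : GMat κ (ι × μ) G) (B : GMat κ' (ι' × μ) G) (Φ : Submodule ℂ (μ → ℂ))
    (x : L2 (((ι ⊕ ι') × μ) × G)) : x ∈ kerA (bm A B) ⊓ pt Φ ↔
      b1 ι ι' μ G x ∈ kerA A ⊓ pt Φ ∧ b2 ι ι' μ G x ∈ kerA B ⊓ pt Φ := by
  have h1 : ∀ k g, act (bm A B) x (Sum.inl k) g = act A (b1 ι ι' μ G x) k g := by
    intro k g
    unfold act bm
    rw [Fintype.sum_prod_type, Fintype.sum_prod_type, Fintype.sum_sum_type]
    simp only [Sum.elim_inl, Sum.elim_inr, Finsupp.sum_zero_index, Finset.sum_const_zero, add_zero]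
    rfl
  have h2 : ∀ k g, act (bm A B) x (Sum.inr k) g = act B (b2 ι ι' μ G x) k g := by
    intro k g
    unfold act bm
    rw [Fintype.sum_prod_type, Fintype.sum_prod_type, Fintype.sum_sum_type]
    simp only [Sum.elim_inl, Sum.elim_inr, Finsupp.sum_zero_index, Finset.sum_const_zero, zero_add]
    rfl
  constructor
  · rintro ⟨h, h'⟩
    refine ⟨⟨fun k g => ?_, fun p g => h' (Sum.inl p) g⟩, ⟨fun k g => ?_, fun p g => h' (Sum.inr p) g⟩⟩
    · rw [← h1]; exact h _ _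
    · rw [← h2]; exact h _ _
  · rintro ⟨⟨h3, h3'⟩, ⟨h4, h4'⟩⟩
    refine ⟨?_, ?_⟩
    · rintro (k | k) g
      · rw [h1]; exact h3 k g
      · rw [h2]; exact h4 k g
    · rintro (p | p) g
      · exact h3' p g
      · exact h4' p g

theorem fd_bm (A : GMat κ (ι × μ) G) (B : GMat κ' (ι' × μ) G) (Φ : Submodule ℂ (μ → ℂ)) :
    fd (bm A B) Φ = fd A Φ + fd B Φ := by
  obtain ⟨u, hu, hu2, hu3⟩ := exists_vec (isClosed_fd A Φ)
  obtain ⟨v, hv, hv2, hv3⟩ := exists_vec (isClosed_fd B Φ)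
  unfold fd
  set w : (ι ⊕ ι') × μ → L2 (((ι ⊕ ι') × μ) × G) := fun a => Sum.elim
    (fun i => KP.push _ inj_b1 (u (i, a.2))) (fun i => KP.push _ inj_b2 (v (i, a.2))) a.1 with hw
  rw [vdim_of_vec (isClosed_fd (bm A B) Φ) w, hu3, hv3, Fintype.sum_prod_type,
    Fintype.sum_sum_type, Fintype.sum_prod_type, Fintype.sum_prod_type]
  · congr 1
    · refine Finset.sum_congr rfl fun i _ => Finset.sum_congr rfl fun j _ => ?_
      rw [hw]
      simp only [Sum.elim_inl]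
      rw [pushL_apply _ inj_b1 (u (i, j)) ((i, j), 1)]
    · refine Finset.sum_congr rfl fun i _ => Finset.sum_congr rfl fun j _ => ?_
      rw [hw]
      simp only [Sum.elim_inr]
      rw [pushL_apply _ inj_b2 (v (i, j)) ((i, j), 1)]
  · rintro ⟨i | i, j⟩
    · rw [mem_bm_iff]
      have e1 : b1 ι ι' μ G (w (Sum.inl i, j)) = u (i, j) := by
        ext p
        exact pushL_apply _ inj_b1 (u (i, j)) p
      have e2 : b2 ι ι' μ G (w (Sum.inl i, j)) = 0 := by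
        ext p
        exact pushL_apply_ne _ inj_b1 (u (i, j)) _ (by
          rintro ⟨⟨a, b⟩, c⟩ h
          simp at h)
      rw [e1, e2]
      exact ⟨hu _, Submodule.zero_mem _⟩
    · rw [mem_bm_iff]
      have e1 : b2 ι ι' μ G (w (Sum.inr i, j)) = v (i, j) := by
        ext p
        exact pushL_apply _ inj_b2 (v (i, j)) p
      have e2 : b1 ι ι' μ G (w (Sum.inr i, j)) = 0 := by
        ext p
        exact pushL_apply_ne _ inj_b2 (v (i, j)) _ (by
          rintro ⟨⟨a, b⟩, c⟩ h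
          simp at h)
      rw [e1, e2]
      exact ⟨Submodule.zero_mem _, hv _⟩
  · rintro ⟨i | i, j⟩ x hx
    · rw [mem_bm_iff] at hx
      rw [hw]
      simp only [Sum.elim_inl]
      rw [KP.push, ContinuousLinearMap.adjoint_inner_left]
      exact hu2 (i, j) _ hx.1
    · rw [mem_bm_iff] at hx
      rw [hw]
      simp only [Sum.elim_inr]
      rw [KP.push, ContinuousLinearMap.adjoint_inner_left]
      exact hv2 (i, j) _ hx.2

theorem fd_le_card (B : GMat κ (ι × μ) G) (Φ : Submodule ℂ (μ → ℂ)) :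
    fd B Φ ≤ Fintype.card (ι × μ) := vdim_le_card _

/-! ### maximizers on an interval -/

/-- the gap between the maximizer on an interval and all other subspaces -/
theorem mx_gap {A : GMat κ (ι × μ) G} {F : Submodule ℂ (μ → ℂ)} {θa θb θ : ℝ} (h1 : IsMx A θa F)
    (h2 : IsMx A θb F) (ha : θa < θ) (hb : θ < θb) {X : Submodule ℂ (μ → ℂ)} (hX : X ≠ F) :
    fd A X - θ * Module.finrank ℂ X + min (θ - θa) (θb - θ) ≤
      fd A F - θ * Module.finrank ℂ F := by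
  set η := min (θ - θa) (θb - θ) with hη
  have hη0 : 0 < η := lt_min (by linarith) (by linarith)
  have hηa : η ≤ θ - θa := min_le_left _ _
  have hηb : η ≤ θb - θ := min_le_right _ _
  have e1 := h2 (X ⊓ F)
  have e2 := h1 (X ⊔ F)
  have e3 := fd_super A X F
  have e4 := finrank_sup_inf X F
  have e5 : Module.finrank ℂ (X ⊓ F : Submodule ℂ (μ → ℂ)) ≤ Module.finrank ℂ F :=
    Submodule.finrank_mono inf_le_right
  have e6 : Module.finrank ℂ F ≤ Module.finrank ℂ (X ⊔ F : Submodule ℂ (μ → ℂ)) :=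
    Submodule.finrank_mono le_sup_right
  have e7 : Module.finrank ℂ (X ⊓ F : Submodule ℂ (μ → ℂ)) < Module.finrank ℂ F ∨
      Module.finrank ℂ F < Module.finrank ℂ (X ⊔ F : Submodule ℂ (μ → ℂ)) := by
    by_contra hc
    push Not at hc
    have f1 : X ⊓ F = F := Submodule.eq_of_le_of_finrank_le inf_le_right hc.1
    have f2 : F = X ⊔ F := Submodule.eq_of_le_of_finrank_le le_sup_right hc.2
    have f3 : F ≤ X := inf_eq_right.1 f1
    have f4 : X ≤ F := by rw [f2]; exact le_sup_left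
    exact hX (le_antisymm f4 f3)
  obtain ⟨p, hp⟩ : ∃ p : ℕ, Module.finrank ℂ F = Module.finrank ℂ (X ⊓ F : Submodule ℂ (μ → ℂ)) + p :=
    ⟨_, (Nat.add_sub_cancel' e5).symm⟩
  obtain ⟨q, hq⟩ : ∃ q : ℕ, Module.finrank ℂ (X ⊔ F : Submodule ℂ (μ → ℂ)) = Module.finrank ℂ F + q :=
    ⟨_, (Nat.add_sub_cancel' e6).symm⟩
  have hpq : (1 : ℝ) ≤ (p : ℝ) + q := by
    have : 1 ≤ p + q := by omega
    exact_mod_cast this
  have hp' : (Module.finrank ℂ F : ℝ) = Module.finrank ℂ (X ⊓ F : Submodule ℂ (μ → ℂ)) + p := by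
    exact_mod_cast hp
  have hq' : (Module.finrank ℂ (X ⊔ F : Submodule ℂ (μ → ℂ)) : ℝ) = Module.finrank ℂ F + q := by
    exact_mod_cast hq
  set rX : ℝ := (Module.finrank ℂ X : ℝ)
  set rF : ℝ := (Module.finrank ℂ F : ℝ)
  set rI : ℝ := (Module.finrank ℂ (X ⊓ F : Submodule ℂ (μ → ℂ)) : ℝ)
  set rS : ℝ := (Module.finrank ℂ (X ⊔ F : Submodule ℂ (μ → ℂ)) : ℝ)
  have hrX : rX = rF - p + q := by linarith
  have hp0 : (0 : ℝ) ≤ p := Nat.cast_nonneg p
  have hq0 : (0 : ℝ) ≤ q := Nat.cast_nonneg q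
  have g1 : fd A (X ⊓ F) ≤ fd A F - θb * p := by
    have : rI = rF - p := by linarith
    rw [this] at e1
    linarith
  have g2 : fd A (X ⊔ F) ≤ fd A F + θa * q := by
    rw [hq'] at e2
    linarith
  have g3 : fd A X ≤ fd A F - θb * p + θa * q := by linarith
  have g4 : η * p ≤ (θb - θ) * p := mul_le_mul_of_nonneg_right hηb hp0
  have g5 : η * q ≤ (θ - θa) * q := mul_le_mul_of_nonneg_right hηa hq0
  have g6 : η ≤ η * p + η * q := by nlinarith
  rw [hrX]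
  nlinarith

/-- **Denominators of `fd B F`.** -/
theorem hn_int (C : (G : Type) → [Group G] → Prop)
    (hfree : ∀ (G : Type) [Group G] (m : ℕ), C G → C (Monoid.Coprod G (FreeGroup (Fin m))))
    (R : Subring ℂ) {d : ℕ}
    (hR : ∀ (G : Type) [Group G], C G → ∀ v : ℝ, Val R G v → ∃ z : ℤ, (d : ℝ) * v = z)
    (hG : C G) {A : GMat κ (ι × μ) G} (hA : Coef R A) {F : Submodule ℂ (μ → ℂ)} {θ0 θ1 : ℝ}
    (h0 : 0 ≤ θ0) (h01 : θ0 < θ1)
    (hF : ∀ N j : ℕ, 0 < N → θ0 < (j : ℝ) / N → (j : ℝ) / N < θ1 → IsMx A ((j : ℝ) / N) F)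
    {B : GMat κ' (ι' × μ) G} (hB : Coef R B) : ∃ z : ℤ, (d : ℝ) * fd B F = z := by
  -- two rational points of the interval
  obtain ⟨Na, hNa, hNa2⟩ := exists_frac h0 h01
  obtain ⟨ja, hja1, hja2⟩ := hNa2 Na le_rfl
  have hθa0 : (0 : ℝ) ≤ (ja : ℝ) / Na := by positivity
  obtain ⟨Nb, hNb, hNb2⟩ := exists_frac hθa0 hja2
  obtain ⟨jb, hjb1, hjb2⟩ := hNb2 Nb le_rfl
  have hFa := hF Na ja hNa hja1 hja2
  have hFb := hF Nb jb hNb (hja1.trans hjb1) hjb2
  set θa : ℝ := (ja : ℝ) / Na with hθa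
  set θb : ℝ := (jb : ℝ) / Nb with hθb
  -- the middle third
  set w : ℝ := (θb - θa) / 3 with hw
  have hw0 : 0 < w := by rw [hw]; linarith
  obtain ⟨L, hL⟩ := exists_nat_gt ((Fintype.card (ι' × μ) : ℝ) / w)
  have hL0 : (0 : ℝ) < L := lt_of_le_of_lt (by positivity) hL
  have hLw : (Fintype.card (ι' × μ) : ℝ) ≤ L * w := by
    rw [div_lt_iff₀ hw0] at hL
    exact hL.le
  set E : GMat (κ × Fin L ⊕ κ') ((ι × Fin L ⊕ ι') × μ) G := bm (am L A) B with hE
  have hEv : ∀ X, fd E X = L * fd A X + fd B X := fun X => by rw [hE, fd_bm, fd_am]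
  have hEc : Coef R E := coef_bm (coef_am L hA) hB
  have hmx : ∀ θ : ℝ, θa + w ≤ θ → θ ≤ θb - w → IsMx E (L * θ) F := by
    intro θ g1 g2 X
    by_cases hX : X = F
    · rw [hX]
    · have g3 := mx_gap hFa hFb (show θa < θ by linarith) (show θ < θb by linarith) hX
      have g4 : w ≤ min (θ - θa) (θb - θ) := le_min (by linarith) (by linarith)
      have g5 := fd_le_card B X
      have g6 := fd_nonneg B F
      have g7 : (L : ℝ) * (fd A X - θ * Module.finrank ℂ X + w) ≤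
          L * (fd A F - θ * Module.finrank ℂ F) := by
        apply mul_le_mul_of_nonneg_left _ hL0.le
        linarith
      rw [hEv, hEv]
      nlinarith
  have key : ∃ z : ℤ, (d : ℝ) * fd E F = z := by
    refine int_of_interval (a := L * (θa + w)) (b := L * (θb - w)) (r := Module.finrank ℂ F)
      (by positivity) ?_ ?_
    · apply mul_lt_mul_of_pos_left _ hL0
      rw [hw]
      linarith
    · intro N j hN g1 g2
      have g3 : IsMx E ((j : ℝ) / N) F := by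
        have := hmx ((j : ℝ) / N / L) (by
          rw [le_div_iff₀ hL0]; linarith) (by rw [div_le_iff₀ hL0]; linarith)
        rwa [mul_div_cancel₀ _ hL0.ne'] at this
      rw [mx_value hN g3]
      exact hR _ (hfree G _ hG) _ (val_of _ (coef_ct N j hEc))
  have key2 : ∃ z : ℤ, (d : ℝ) * fd A F = z := by
    refine int_of_interval (a := θa) (b := θb) (r := Module.finrank ℂ F) hθa0 hjb1 ?_
    intro N j hN g1 g2
    rw [mx_value hN (hF N j hN (hja1.trans g1) (g2.trans hjb2))]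
    exact hR _ (hfree G _ hG) _ (val_of _ (coef_ct N j hA))
  obtain ⟨z, hz⟩ := key
  obtain ⟨z', hz'⟩ := key2
  refine ⟨z - L * z', ?_⟩
  rw [hEv] at hz
  push_cast
  rw [← hz, ← hz']
  ring

/-- The largest maximizer at a rational point is the maximizer on an interval to the left. -/
theorem top_piece {A : GMat κ (ι × μ) G} {F : Submodule ℂ (μ → ℂ)} {N j : ℕ}
    (hpos : 0 < (j : ℝ) / N) (hF : IsMx A ((j : ℝ) / N) F)
    (htop : ∀ Ψ, IsMx A ((j : ℝ) / N) Ψ → Ψ ≤ F) :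
    ∃ θ0 : ℝ, 0 ≤ θ0 ∧ θ0 < (j : ℝ) / N ∧ ∀ N' j' : ℕ, 0 < N' → θ0 < (j' : ℝ) / N' →
      (j' : ℝ) / N' < (j : ℝ) / N → IsMx A ((j' : ℝ) / N') F := by
  classical
  set θ : ℝ := (j : ℝ) / N with hθ
  have hmx : ∀ N j : ℕ, 0 < N → ∃ Φ, IsMx A ((j : ℝ) / N) Φ :=
    fun N j hN => ⟨_, (mx_vals A N j hN).1⟩
  have hL : ∃ n : ℕ, ∃ N' j' : ℕ, 0 < N' ∧ (j' : ℝ) / N' < θ ∧ ∃ Φ, IsMx A ((j' : ℝ) / N') Φ ∧
      Module.finrank ℂ Φ = n := by
    obtain ⟨Φ, hΦ⟩ := hmx 1 0 one_pos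
    exact ⟨_, 1, 0, one_pos, by simpa using hpos, Φ, hΦ, rfl⟩
  obtain ⟨N0, j0, hN0, hθ0, Φm, hΦm, hrm⟩ := Nat.find_spec hL
  have hLmin : ∀ N' j' : ℕ, 0 < N' → (j' : ℝ) / N' < θ → ∀ Φ, IsMx A ((j' : ℝ) / N') Φ →
      Module.finrank ℂ Φm ≤ Module.finrank ℂ Φ := by
    intro N' j' hN' hj' Φ hΦ
    rw [hrm]
    exact Nat.find_min' hL ⟨N', j', hN', hj', Φ, hΦ, rfl⟩
  have hLmx : ∀ N' j' : ℕ, 0 < N' → (j0 : ℝ) / N0 < (j' : ℝ) / N' → (j' : ℝ) / N' < θ →
      IsMx A ((j' : ℝ) / N') Φm := by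
    intro N' j' hN' hj1 hj2
    obtain ⟨Ψ, hΨ⟩ := hmx N' j' hN'
    have h1 := mx_cross hj1 hΦm hΨ
    have h2 : Ψ = Φm := Submodule.eq_of_le_of_finrank_le h1 (hLmin N' j' hN' hj2 Ψ hΨ)
    rwa [← h2]
  have hθ00 : (0 : ℝ) ≤ (j0 : ℝ) / N0 := by positivity
  -- the limit
  have hlim : IsMx A θ Φm := by
    intro X
    by_contra hc
    push Not at hc
    set g : ℝ := fd A X - θ * Module.finrank ℂ X - (fd A Φm - θ * Module.finrank ℂ Φm) with hg
    have hg0 : 0 < g := by rw [hg]; linarith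
    set r : ℝ := |(Module.finrank ℂ X : ℝ) - Module.finrank ℂ Φm| + 1 with hr
    have hr0 : 0 < r := by positivity
    have h1 : max ((j0 : ℝ) / N0) (θ - g / r) < θ := max_lt hθ0 (by
      have : 0 < g / r := by positivity
      linarith)
    obtain ⟨N', hN', hN2⟩ := exists_frac (le_max_of_le_left hθ00) h1
    obtain ⟨j', hj1, hj2⟩ := hN2 N' le_rfl
    have h2 := hLmx N' j' hN' ((le_max_left _ _).trans_lt hj1) hj2 X
    have h3 : θ - g / r < (j' : ℝ) / N' := (le_max_right _ _).trans_lt hj1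
    set t : ℝ := (j' : ℝ) / N'
    have h4 : (θ - t) * r < g := by
      have : θ - t < g / r := by linarith
      rwa [lt_div_iff₀ hr0] at this
    have h5 : ((Module.finrank ℂ X : ℝ) - Module.finrank ℂ Φm) ≤ r := by
      rw [hr]
      linarith [le_abs_self ((Module.finrank ℂ X : ℝ) - Module.finrank ℂ Φm)]
    have h5' : -((Module.finrank ℂ X : ℝ) - Module.finrank ℂ Φm) ≤ r := by
      rw [hr]
      linarith [neg_abs_le ((Module.finrank ℂ X : ℝ) - Module.finrank ℂ Φm)]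
    have h6 : 0 < θ - t := by linarith
    have h7 : (θ - t) * -((Module.finrank ℂ X : ℝ) - Module.finrank ℂ Φm) ≤ (θ - t) * r :=
      mul_le_mul_of_nonneg_left h5' h6.le
    have h8 : (θ - t) * ((Module.finrank ℂ X : ℝ) - Module.finrank ℂ Φm) ≤ (θ - t) * r :=
      mul_le_mul_of_nonneg_left h5 h6.le
    nlinarith
  have h1 : Φm ≤ F := htop _ hlim
  obtain ⟨N1, hN1, hN12⟩ := exists_frac hθ00 hθ0
  obtain ⟨j1, hj11, hj12⟩ := hN12 N1 le_rfl
  have h2 : F ≤ Φm := mx_cross hj12 (hLmx N1 j1 hN1 hj11 hj12) hF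
  have h3 : F = Φm := le_antisymm h2 h1
  refine ⟨(j0 : ℝ) / N0, hθ00, hθ0, fun N' j' hN' g1 g2 => ?_⟩
  rw [h3]
  exact hLmx N' j' hN' g1 g2

end Pool.Agent.K3h37.UD
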