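import Pool.Agent.W656.VA9
import Pool.Agent.R701.FreeProd
import Pool.Agent.W702.CoHopf.FreeProd

/-!
# Finite subgroups of free products; free products with a free group of infinite rank
-/

set_option autoImplicit false

namespace Pool.Agent.K3h37.UD

open Pool.Agent.H80R2.BC (TorDiv)
open Pool.Agent.W656.VA

/-- The orders of the finite subgroups of a free product divide `d` if this holds for the factors. -/
theorem torDiv_coprodI {ι : Type} {M : ι → Type} [∀ i, Group (M i)] {d : ℕ}
    (h : ∀ i, TorDiv (M i) d) : TorDiv (Monoid.CoprodI M) d := by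
  classical
  intro H hH
  by_cases hbot : ∀ s ∈ H, s = 1
  · have : Subsingleton H := ⟨fun a b => Subtype.ext ((hbot _ a.2).trans (hbot _ b.2).symm)⟩
    rw [Nat.card_of_subsingleton 1]
    exact one_dvd d
  push Not at hbot
  obtain ⟨s₀, hs₀, hs₀1⟩ := hbot
  set S : Set (Monoid.CoprodI M) := {s | s ∈ H ∧ s ≠ 1} with hS
  have hfin : S.Finite := Set.Finite.subset (s := (H : Set (Monoid.CoprodI M)))
    (Set.toFinite _) fun s hs => hs.1
  have hEll : ∀ s ∈ S, Pool.Agent.R701.FreeProd.Ell s := by
    rintro s ⟨hs, hs1⟩
    have hpow : s ^ Nat.card H = 1 := by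
      have h1 := pow_card_eq_one' (x := (⟨s, hs⟩ : H))
      have h2 := congrArg H.subtype h1
      rw [map_pow, map_one] at h2
      exact h2
    obtain ⟨c, i, m, hm⟩ := Pool.Agent.W702.CoHopf.exists_conj_pow s (Nat.card H) Nat.card_pos
      hpow hs1
    refine ⟨i, m, c, ?_, ?_⟩
    · rintro rfl
      rw [map_one] at hm
      apply hs1
      have : s = c * (c⁻¹ * s * c) * c⁻¹ := by group
      rw [this, hm]
      group
    · rw [← hm]
      group
  rcases Pool.Agent.R701.FreeProd.key S hfin hEll ⟨s₀, hs₀, hs₀1⟩ with ⟨i, g, hg⟩ | ⟨p, hp, q, hq, hpq, -⟩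
  · -- all elements are in one conjugate of one factor
    set f : M i →* Monoid.CoprodI M := (MulAut.conj g).toMonoidHom.comp Monoid.CoprodI.of with hf
    have hfi : Function.Injective f := by
      intro a b hab
      exact Monoid.CoprodI.of_injective i ((MulAut.conj g).injective hab)
    have hfa : ∀ m, f m = g * Monoid.CoprodI.of m * g⁻¹ := fun m => rfl
    set K : Subgroup (M i) := H.comap f with hK
    have hmap : K.map f = H := by
      apply le_antisymm
      · exact Subgroup.map_comap_le f H
      · intro s hs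
        by_cases h1 : s = 1
        · subst h1
          exact Subgroup.one_mem _
        · obtain ⟨m, hm⟩ := hg s ⟨hs, h1⟩
          refine ⟨m, ?_, ?_⟩
          · change f m ∈ H
            rw [hfa, ← hm]
            exact hs
          · rw [hfa, ← hm]
    have e := K.equivMapOfInjective f hfi
    have e2 : Nat.card K = Nat.card H := by
      rw [Nat.card_congr e.toEquiv, hmap]
    have hKf : Finite K := by
      have : Finite (K.map f) := by rw [hmap]; exact hH
      exact Finite.of_equiv _ e.symm.toEquiv
    rw [← e2]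
    exact h i K hKf
  · exfalso
    apply hpq
    refine ⟨H.mul_mem (H.mul_mem hq.1 hp.1) (H.inv_mem hq.1), ?_⟩
    intro h1
    apply hp.2
    have : p = q⁻¹ * (q * p * q⁻¹) * q := by group
    rw [this, h1]
    group

/-- The lcm for a free product one of whose factors has the lcm `d`. -/
theorem isLcm_coprodI {ι : Type} {M : ι → Type} [∀ i, Group (M i)] {d : ℕ} (i₀ : ι)
    (h : ∀ i, IsLcm (M i) d) : IsLcm (Monoid.CoprodI M) d := by
  refine isLcm_of (h i₀).pos (torDiv_coprodI fun i => (h i).2.1) ?_
  intro e he
  apply (h i₀).2.2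
  intro H hH
  have := card_map_of_inj (f := (Monoid.CoprodI.of : M i₀ →* Monoid.CoprodI M))
    (Monoid.CoprodI.of_injective i₀) H
  rw [← this.2]
  exact he _ this.1

/-- A finite group. -/
theorem isLcm_finite (G : Type) [Group G] [Finite G] : IsLcm G (Nat.card G) := by
  refine isLcm_of Nat.card_pos (fun H _ => Subgroup.card_subgroup_dvd_card H) fun e he => ?_
  have := he ⊤ inferInstance
  rwa [Nat.card_congr (Subgroup.topEquiv (G := G)).toEquiv] at this

/-- The free product with a free group of infinite rank. -/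
abbrev Inf (G : Type) [Group G] : Type := Monoid.Coprod G (FreeGroup ℕ)

/-- `(G * F_∞) * F_m` embeds in `G * F_∞`. -/
noncomputable def absorb (G : Type) [Group G] (m : ℕ) :
    Monoid.Coprod (Inf G) (FreeGroup (Fin m)) →* Inf G :=
  Monoid.Coprod.lift
    (Monoid.Coprod.lift Monoid.Coprod.inl
      (FreeGroup.lift fun n : ℕ => Monoid.Coprod.inr (FreeGroup.of (n + m))))
    (FreeGroup.lift fun i : Fin m => Monoid.Coprod.inr (FreeGroup.of (i : ℕ)))

/-- The map back. -/
noncomputable def unabsorb (G : Type) [Group G] (m : ℕ) :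
    Inf G →* Monoid.Coprod (Inf G) (FreeGroup (Fin m)) :=
  Monoid.Coprod.lift (Monoid.Coprod.inl.comp Monoid.Coprod.inl)
    (FreeGroup.lift fun n : ℕ => if h : n < m then Monoid.Coprod.inr (FreeGroup.of ⟨n, h⟩)
      else Monoid.Coprod.inl (Monoid.Coprod.inr (FreeGroup.of (n - m))))

theorem unabsorb_absorb (G : Type) [Group G] (m : ℕ) :
    (unabsorb G m).comp (absorb G m) = MonoidHom.id _ := by
  apply Monoid.Coprod.hom_ext
  · apply Monoid.Coprod.hom_ext
    · ext g
      simp [absorb, unabsorb]
    · ext n
      simp [absorb, unabsorb]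
  · ext i
    simp [absorb, unabsorb]

theorem absorb_injective (G : Type) [Group G] (m : ℕ) : Function.Injective (absorb G m) := by
  intro x y h
  have h1 := DFunLike.congr_fun (unabsorb_absorb G m)
  have hx := h1 x
  have hy := h1 y
  simp only [MonoidHom.comp_apply, MonoidHom.id_apply] at hx hy
  rw [← hx, ← hy, h]

end Pool.Agent.K3h37.UD
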