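import Mathlib

/-!
# Sets of reals which are closed under addition and under subtraction of integers

Such a set of nonnegative reals which contains `1` is dense in `[0, ∞)` or consists of the
nonnegative multiples of `1 / D` for one positive integer `D`.
-/

set_option autoImplicit false

namespace Pool.Agent.K3h37.UD

/-- The properties of the sets of kernel dimensions which are used. -/
structure Adm (V : Set ℝ) : Prop where
  nonneg : ∀ v ∈ V, 0 ≤ v
  zero : (0 : ℝ) ∈ V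
  one : (1 : ℝ) ∈ V
  add : ∀ v ∈ V, ∀ w ∈ V, v + w ∈ V
  cut : ∀ v ∈ V, ∀ j : ℕ, (j : ℝ) < v → v - j ∈ V

variable {V : Set ℝ}

theorem Adm.mul (h : Adm V) {v : ℝ} (hv : v ∈ V) (k : ℕ) : (k : ℝ) * v ∈ V := by
  induction k with
  | zero => simpa using h.zero
  | succ k ih =>
    have := h.add _ ih _ hv
    push_cast
    rwa [add_mul, one_mul]

/-- Dense in `[0, ∞)`. -/
def Dns (V : Set ℝ) : Prop := ∀ a b : ℝ, 0 ≤ a → a < b → ∃ v ∈ V, a < v ∧ v < b

theorem Adm.dense_of_small (h : Adm V) (hs : ∀ ε : ℝ, 0 < ε → ∃ v ∈ V, 0 < v ∧ v < ε) : Dns V := by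
  intro a b ha hab
  obtain ⟨v, hv, hv0, hvb⟩ := hs (b - a) (by linarith)
  refine ⟨_, h.mul hv (⌊a / v⌋₊ + 1), ?_, ?_⟩
  · have h1 : a / v < ⌊a / v⌋₊ + 1 := Nat.lt_floor_add_one _
    rw [div_lt_iff₀ hv0] at h1
    push_cast
    exact h1
  · have h1 : (⌊a / v⌋₊ : ℝ) ≤ a / v := Nat.floor_le (div_nonneg ha hv0.le)
    rw [le_div_iff₀ hv0] at h1
    push_cast
    linarith

/-- In a set without small positive elements all elements are rational. -/
theorem Adm.rational (h : Adm V) {ε : ℝ} (hε : 0 < ε) (hs : ∀ v ∈ V, ¬ (0 < v ∧ v < ε)) {v : ℝ}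
    (hv : v ∈ V) : ∃ k z : ℕ, 0 < k ∧ (k : ℝ) * v = z := by
  set δ := min ε 1 with hδ
  have hδ0 : 0 < δ := lt_min hε one_pos
  obtain ⟨n, hn⟩ := exists_nat_one_div_lt hδ0
  obtain ⟨j, k, hk0, -, hjk⟩ := Real.exists_int_int_abs_mul_sub_le v (n := n + 1) (by omega)
  have hv0 := h.nonneg v hv
  have hb : |(k : ℝ) * v - j| < δ := by
    refine lt_of_le_of_lt hjk (lt_trans ?_ hn)
    apply one_div_lt_one_div_of_lt
    · positivity
    · push_cast; linarith
  obtain ⟨K, rfl⟩ := Int.eq_ofNat_of_zero_le hk0.le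
  have hK0 : 0 < K := by exact_mod_cast hk0
  have hKv := h.mul hv K
  have hKv0 : 0 ≤ (K : ℝ) * v := by positivity
  rw [Int.cast_natCast] at hb
  rw [abs_lt] at hb
  have hj0 : 0 ≤ j := by
    by_contra hc
    have : (j : ℝ) ≤ -1 := by exact_mod_cast (by omega : j ≤ -1)
    have := min_le_right ε (1 : ℝ)
    linarith [hb.2]
  obtain ⟨J, rfl⟩ := Int.eq_ofNat_of_zero_le hj0
  rw [Int.cast_natCast] at hb
  rcases lt_trichotomy ((K : ℝ) * v) J with hlt | heq | hgt
  · -- slightly below an integer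
    exfalso
    set η : ℝ := J - K * v with hη
    have hη0 : 0 < η := by linarith
    have hηδ : η < δ := by linarith [hb.1]
    have hη1 : η < 1 := lt_of_lt_of_le hηδ (min_le_right _ _)
    have hηε : η < ε := lt_of_lt_of_le hηδ (min_le_left _ _)
    have hc0 : 0 < ⌈1 / η⌉₊ := Nat.ceil_pos.2 (by positivity)
    obtain ⟨l, hl⟩ : ∃ l : ℕ, ⌈1 / η⌉₊ = l + 1 := ⟨⌈1 / η⌉₊ - 1, by omega⟩
    have hl1 : (l : ℝ) * η < 1 := by
      have : l < ⌈1 / η⌉₊ := by omega
      rw [Nat.lt_ceil, lt_div_iff₀ hη0] at this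
      exact this
    have hl2 : 1 ≤ ((l : ℝ) + 1) * η := by
      have : 1 / η ≤ (⌈1 / η⌉₊ : ℝ) := Nat.le_ceil _
      rw [hl, div_le_iff₀ hη0] at this
      push_cast at this
      exact this
    have hl0 : 1 ≤ l := by
      by_contra hc
      have : l = 0 := by omega
      rw [this] at hl2
      simp only [Nat.cast_zero, zero_add, one_mul] at hl2
      linarith
    have hJ0 : 1 ≤ J := by
      by_contra hc
      have : J = 0 := by omega
      rw [this] at hη
      simp only [Nat.cast_zero, zero_sub] at hη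
      linarith
    have hlJ : 1 ≤ l * J := Nat.mul_pos (by omega) (by omega)
    have hw := h.mul hKv l
    have hcut := h.cut _ hw (l * J - 1) (by
      rw [Nat.cast_sub hlJ]
      push_cast
      have : (l : ℝ) * (K * v) = l * J - l * η := by rw [hη]; ring
      rw [this]
      linarith)
    rw [Nat.cast_sub hlJ] at hcut
    push_cast at hcut
    have he : (l : ℝ) * (K * v) - (l * J - 1) = 1 - l * η := by rw [hη]; ring
    rw [he] at hcut
    exact hs _ hcut ⟨by linarith, by nlinarith⟩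
  · exact ⟨K, J, hK0, heq⟩
  · exfalso
    have hcut := h.cut _ hKv J hgt
    refine hs _ hcut ⟨by linarith, ?_⟩
    linarith [hb.2, min_le_left ε (1 : ℝ)]

/-- **Discrete or dense.** -/
theorem Adm.dich (h : Adm V) :
    (∃ D : ℕ, 0 < D ∧ V = {r | ∃ k : ℕ, r = (k : ℝ) / D}) ∨ Dns V := by
  by_cases hs : ∀ ε : ℝ, 0 < ε → ∃ v ∈ V, 0 < v ∧ v < ε
  · exact Or.inr (h.dense_of_small hs)
  push Not at hs
  obtain ⟨ε, hε, hs⟩ := hs
  have hs' : ∀ v ∈ V, ¬ (0 < v ∧ v < ε) := fun v hv hc => absurd hc.2 (not_lt.2 (hs v hv hc.1))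
  left
  -- the differences form a group
  let S : AddSubgroup ℝ :=
    { carrier := {x | ∃ v ∈ V, ∃ w ∈ V, x = v - w}
      zero_mem' := ⟨0, h.zero, 0, h.zero, by ring⟩
      add_mem' := by
        rintro _ _ ⟨v, hv, w, hw, rfl⟩ ⟨v', hv', w', hw', rfl⟩
        exact ⟨v + v', h.add _ hv _ hv', w + w', h.add _ hw _ hw', by ring⟩
      neg_mem' := by
        rintro _ ⟨v, hv, w, hw, rfl⟩
        exact ⟨w, hw, v, hv, by ring⟩ }
  have hpos : ∀ x ∈ S, 0 < x → x ∈ V := by
    rintro x ⟨v, hv, w, hw, rfl⟩ hx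
    obtain ⟨k, z, hk, hkz⟩ := h.rational hε hs' hw
    have h1 := h.add _ hv _ (h.mul hw (k - 1))
    rw [Nat.cast_sub (by omega : 1 ≤ k)] at h1
    have h2 := h.cut _ h1 z (by push_cast; linarith)
    have h3 : v + ((k : ℝ) - (1 : ℕ)) * w - z = v - w := by
      rw [← hkz]; push_cast; ring
    rwa [h3] at h2
  have hdisj : Disjoint (S : Set ℝ) (Set.Ioo 0 ε) := by
    rw [Set.disjoint_left]
    rintro x hx ⟨hx0, hxε⟩
    exact hs' x (hpos x hx hx0) ⟨hx0, hxε⟩
  obtain ⟨c, hc⟩ := AddSubgroup.cyclic_of_isolated_zero hε hdisj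
  have hmem : ∀ x, x ∈ S ↔ ∃ n : ℤ, (n : ℝ) * c = x := by
    intro x
    rw [hc, AddSubgroup.mem_closure_singleton]
    simp [zsmul_eq_mul]
  obtain ⟨n, hn⟩ := (hmem 1).1 ⟨1, h.one, 0, h.zero, by ring⟩
  have hn0 : n ≠ 0 := by
    rintro rfl
    simp at hn
  have hc1 : c = 1 / (n : ℝ) := by
    have : (n : ℝ) ≠ 0 := by exact_mod_cast hn0
    field_simp
    linarith
  refine ⟨n.natAbs, Int.natAbs_pos.2 hn0, ?_⟩
  have habs : ((n.natAbs : ℕ) : ℝ) = |(n : ℝ)| := by
    rw [Nat.cast_natAbs, Int.cast_abs]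
  ext r
  constructor
  · intro hr
    obtain ⟨m, hm⟩ := (hmem r).1 ⟨r, hr, 0, h.zero, by ring⟩
    have hr0 := h.nonneg r hr
    refine ⟨m.natAbs, ?_⟩
    have hma : ((m.natAbs : ℕ) : ℝ) = |(m : ℝ)| := by
      rw [Nat.cast_natAbs, Int.cast_abs]
    rw [habs, hma, ← abs_div, ← abs_of_nonneg hr0, ← hm, hc1]
    congr 1
    ring
  · rintro ⟨k, rfl⟩
    have hk0 : (0 : ℝ) ≤ (k : ℝ) / (n.natAbs : ℕ) := by positivity
    rcases hk0.eq_or_lt with h0 | h0
    · rw [← h0]; exact h.zero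
    · apply hpos _ _ h0
      rw [hmem]
      rcases le_or_gt 0 n with hn' | hn'
      · refine ⟨k, ?_⟩
        rw [habs, hc1, abs_of_nonneg (by exact_mod_cast hn')]
        push_cast
        ring
      · refine ⟨-k, ?_⟩
        rw [habs, hc1, abs_of_neg (by exact_mod_cast hn')]
        push_cast
        rw [div_neg]
        ring

end Pool.Agent.K3h37.UD
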