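import Pool.Agent.W656.VB6
import Pool.Agent.K3h37.UD.Tor
import Pool.Agent.K3h37.UD.Vset

/-!
# Kernel dimensions: discrete or dense, for one group and for all groups with a given lcm
-/

set_option autoImplicit false

namespace Pool.Agent.K3h37.UD

open Pool.Agent.W656.VA

/-- The values over one group. -/
def VG (R : Subring ℂ) (G : Type) [Group G] : Set ℝ := {v | Val R G v}

/-- The values over all groups with the lcm `d`. -/
def VC (R : Subring ℂ) (d : ℕ) : Set ℝ := {v | ∃ (G : Type) (_ : Group G), IsLcm G d ∧ Val R G v}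

/-- The nonnegative multiples of `1 / D`. -/
def Mult (D : ℕ) : Set ℝ := {r | ∃ k : ℕ, r = (k : ℝ) / D}

theorem val_one {R : Subring ℂ} {G : Type} [Group G] : Val R G 1 := by
  have h := val_subgroup (R := R) (G := G) (⊥ : Subgroup G)
  have h2 : (Nat.card (⊥ : Subgroup G) : ℝ) = 1 := by simp
  rwa [h2, div_one] at h

theorem adm_inf (R : Subring ℂ) (G : Type) [Group G] : Adm (VG R (Inf G)) where
  nonneg := fun _ hv => val_nonneg hv
  zero := val_zero
  one := val_one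
  add := fun _ hv _ hw => val_add hv hw
  cut := fun _ hv j hj => by
    obtain ⟨m, hm⟩ := val_cut hv j hj
    exact val_incl (absorb G m) (absorb_injective G m) hm

theorem val_inl {R : Subring ℂ} {G : Type} [Group G] {v : ℝ} (hv : Val R G v) : Val R (Inf G) v :=
  val_incl (Monoid.Coprod.inl : G →* Inf G) Monoid.Coprod.inl_injective hv

theorem dvd_of_inv {c D : ℕ} (hc : 0 < c) (hD : 0 < D) (h : 1 / (c : ℝ) ∈ Mult D) : c ∣ D := by
  obtain ⟨k, hk⟩ := h
  have hc' : (c : ℝ) ≠ 0 := by exact_mod_cast hc.ne'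
  have hD' : (D : ℝ) ≠ 0 := by exact_mod_cast hD.ne'
  rw [div_eq_div_iff hc' hD', one_mul] at hk
  exact ⟨k, by rw [mul_comm]; exact_mod_cast hk⟩

theorem card_dvd {R : Subring ℂ} {G : Type} [Group G] {D : ℕ} (hD : 0 < D)
    (h : VG R (Inf G) = Mult D) (H : Subgroup G) (hH : Finite H) : Nat.card H ∣ D := by
  apply dvd_of_inv Nat.card_pos hD
  rw [← h]
  exact val_inl (val_subgroup H)

/-- An interval longer than `1 / D` contains a multiple of `1 / D`. -/
theorem exists_mult {D : ℕ} (hD : 0 < D) {a b : ℝ} (ha : 0 ≤ a) (hab : 1 / (D : ℝ) < b - a) :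
    ∃ k : ℕ, a < (k : ℝ) / D ∧ (k : ℝ) / D < b := by
  have hD' : (0 : ℝ) < D := by exact_mod_cast hD
  refine ⟨⌊a * D⌋₊ + 1, ?_, ?_⟩
  · rw [lt_div_iff₀ hD']
    push_cast
    exact Nat.lt_floor_add_one _
  · have h1 : (⌊a * D⌋₊ : ℝ) ≤ a * D := Nat.floor_le (by positivity)
    rw [div_lt_iff₀ hD']
    rw [div_lt_iff₀ hD'] at hab
    push_cast
    nlinarith

theorem le_half {d D : ℕ} (hd : 0 < d) (h : d ∣ D) (hD : 0 < D) (hne : D ≠ d) :
    1 / (D : ℝ) ≤ 1 / (2 * (d : ℝ)) := by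
  obtain ⟨k, rfl⟩ := h
  have hk : 2 ≤ k := by
    rcases k with _ | _ | k
    · simp at hD
    · simp at hne
    · omega
  apply one_div_le_one_div_of_le
  · positivity
  · push_cast
    have : (2 : ℝ) ≤ k := by exact_mod_cast hk
    have hd' : (0 : ℝ) < d := by exact_mod_cast hd
    nlinarith

theorem int_of_mult {d : ℕ} (hd : 0 < d) {v : ℝ} (h : v ∈ Mult d) : ∃ z : ℤ, (d : ℝ) * v = z := by
  obtain ⟨k, rfl⟩ := h
  have hd' : (d : ℝ) ≠ 0 := by exact_mod_cast hd.ne'
  exact ⟨k, by push_cast; field_simp⟩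

/-- **The criterion for one group.** -/
theorem single_gap (R : Subring ℂ) {G : Type} [Group G] {d : ℕ} (hd : IsLcm G d) :
    List.TFAE [∀ v ∈ VG R (Inf G), ∃ z : ℤ, (d : ℝ) * v = z,
      ∀ v ∈ VG R (Inf G), ¬ (0 < v ∧ v < 1 / d),
      ∃ a b : ℝ, 0 ≤ a ∧ 1 / (2 * (d : ℝ)) < b - a ∧ ∀ v ∈ VG R (Inf G), ¬ (a < v ∧ v < b)] := by
  have hd0 : (0 : ℝ) < d := by exact_mod_cast hd.pos
  tfae_have 1 → 2 := by
    rintro h v hv ⟨h0, h1⟩
    obtain ⟨z, hz⟩ := h v hv
    rw [lt_div_iff₀ hd0] at h1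
    have h2 : (0 : ℝ) < z := by rw [← hz]; positivity
    have h3 : (z : ℝ) < 1 := by rw [← hz]; linarith
    have h2' : 0 < z := by exact_mod_cast h2
    have h3' : z < 1 := by exact_mod_cast h3
    omega
  tfae_have 2 → 3 := by
    intro h
    refine ⟨0, 1 / d, le_rfl, ?_, h⟩
    rw [sub_zero]
    apply one_div_lt_one_div_of_lt hd0
    linarith
  tfae_have 3 → 1 := by
    rintro ⟨a, b, ha, hab, h⟩
    rcases (adm_inf R G).dich with ⟨D, hD, hV⟩ | hden
    · by_cases hne : D = d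
      · subst hne
        intro v hv
        rw [hV] at hv
        exact int_of_mult hD hv
      · exfalso
        have hdD : d ∣ D := hd.2.2 D fun H hH => card_dvd hD hV H hH
        obtain ⟨k, hk1, hk2⟩ := exists_mult hD ha (lt_of_le_of_lt (le_half hd.pos hdD hD hne) hab)
        refine h _ ?_ ⟨hk1, hk2⟩
        rw [hV]
        exact ⟨k, rfl⟩
    · exfalso
      have : a < b := by
        have : 0 < 1 / (2 * (d : ℝ)) := by positivity
        linarith
      obtain ⟨v, hv, h1, h2⟩ := hden a b ha this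
      exact h v hv ⟨h1, h2⟩
  tfae_finish

/-! ### all groups with the lcm `d` -/

/-- Values over different groups occur together. -/
theorem collect {R : Subring ℂ} {d : ℕ} {ι : Type} [Nonempty ι] (f : ι → ℝ)
    (hf : ∀ i, f i ∈ VC R d) : ∃ (Γ : Type) (_ : Group Γ), IsLcm Γ d ∧ ∀ i, Val R Γ (f i) := by
  choose G inst hG hv using hf
  obtain ⟨i₀⟩ := ‹Nonempty ι›
  refine ⟨Monoid.CoprodI G, inferInstance, isLcm_coprodI i₀ hG, fun i => ?_⟩
  exact val_incl (Monoid.CoprodI.of : G i →* Monoid.CoprodI G) (Monoid.CoprodI.of_injective i) (hv i)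

theorem isLcm_cyc {d : ℕ} (hd : 0 < d) : IsLcm (Multiplicative (ZMod d)) d := by
  have : NeZero d := ⟨hd.ne'⟩
  have h := isLcm_finite (Multiplicative (ZMod d))
  have h2 : Nat.card (Multiplicative (ZMod d)) = d := by
    rw [Nat.card_congr Multiplicative.toAdd, Nat.card_zmod]
  rwa [h2] at h

theorem val_cyc (R : Subring ℂ) {d : ℕ} (hd : 0 < d) :
    Val R (Multiplicative (ZMod d)) (1 / (d : ℝ)) := by
  have : NeZero d := ⟨hd.ne'⟩
  have h := val_subgroup (R := R) (⊤ : Subgroup (Multiplicative (ZMod d)))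
  have h2 : Nat.card (⊤ : Subgroup (Multiplicative (ZMod d))) = d := by
    rw [Nat.card_congr (Subgroup.topEquiv (G := Multiplicative (ZMod d))).toEquiv,
      Nat.card_congr Multiplicative.toAdd, Nat.card_zmod]
  rwa [h2] at h

theorem adm_class (R : Subring ℂ) {d : ℕ} (hd : 0 < d) : Adm (VC R d) where
  nonneg := by
    rintro v ⟨G, _, -, hv⟩
    exact val_nonneg hv
  zero := ⟨_, inferInstance, isLcm_cyc hd, val_zero⟩
  one := ⟨_, inferInstance, isLcm_cyc hd, val_one⟩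
  add := by
    intro v hv w hw
    obtain ⟨Γ, _, hΓ, h⟩ := collect (R := R) (d := d) (fun b : Bool => if b then v else w)
      (fun b => by cases b <;> simpa)
    exact ⟨Γ, inferInstance, hΓ, val_add (by simpa using h true) (by simpa using h false)⟩
  cut := by
    rintro v ⟨G, _, hG, hv⟩ j hj
    obtain ⟨m, hm⟩ := val_cut hv j hj
    exact ⟨_, inferInstance, hG.coprod m, hm⟩

/-- **Uniform denominators or a dense set for one group.** -/
theorem class_dich (R : Subring ℂ) {d : ℕ} (hd : 0 < d) :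
    (∃ D : ℕ, 0 < D ∧ d ∣ D ∧ VC R d = Mult D) ∨
      ∃ (Γ : Type) (_ : Group Γ), IsLcm Γ d ∧ Dns (VG R Γ) := by
  rcases (adm_class R hd).dich with ⟨D, hD, hV⟩ | hden
  · refine Or.inl ⟨D, hD, ?_, hV⟩
    apply dvd_of_inv hd hD
    change _ ∈ {r : ℝ | ∃ k : ℕ, r = (k : ℝ) / D}
    rw [← hV]
    exact ⟨_, inferInstance, isLcm_cyc hd, val_cyc R hd⟩
  · right
    have h1 : ∀ p : {p : ℚ × ℚ // 0 ≤ p.1 ∧ p.1 < p.2}, ∃ v ∈ VC R d,
        ((p.1.1 : ℚ) : ℝ) < v ∧ v < ((p.1.2 : ℚ) : ℝ) := by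
      rintro ⟨⟨a, b⟩, ha, hab⟩
      exact hden a b (by exact_mod_cast ha) (by exact_mod_cast hab)
    choose f hf hf1 hf2 using h1
    have : Nonempty {p : ℚ × ℚ // 0 ≤ p.1 ∧ p.1 < p.2} := ⟨⟨(0, 1), le_rfl, by norm_num⟩⟩
    obtain ⟨Γ, _, hΓ, h⟩ := collect (R := R) (d := d) f hf
    refine ⟨Γ, inferInstance, hΓ, ?_⟩
    intro a b ha hab
    obtain ⟨q, hq1, hq2⟩ := exists_rat_btwn hab
    obtain ⟨q', hq1', hq2'⟩ := exists_rat_btwn hq2
    have hq0 : 0 ≤ q := by
      have : (0 : ℝ) ≤ q := by linarith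
      exact_mod_cast this
    have hqq : q < q' := by exact_mod_cast hq1'
    have e1 := hf1 ⟨(q, q'), hq0, hqq⟩
    have e2 := hf2 ⟨(q, q'), hq0, hqq⟩
    exact ⟨_, h ⟨(q, q'), hq0, hqq⟩, lt_trans hq1 e1, lt_trans e2 hq2'⟩

theorem isLcm_unique {G : Type} [Group G] {d e : ℕ} (h : IsLcm G d) (h' : IsLcm G e) : d = e :=
  Nat.dvd_antisymm (h.2.2 e h'.2.1) (h'.2.2 d h.2.1)

/-- If the values for one lcm are discrete, the values for torsion-free groups are integers. -/
theorem tf_of_discrete (R : Subring ℂ) {d D : ℕ} (hd : 0 < d) (hD : 0 < D)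
    (h : VC R d ⊆ Mult D) {G : Type} [Group G] (hG : IsLcm G 1) {v : ℝ} (hv : Val ⊤ G v) :
    ∃ z : ℤ, v = z := by
  have hprod : ∀ (G H : Type) [Group G] [Group H], IsLcm G 1 → IsLcm H 1 → IsLcm (G × H) 1 :=
    fun G H _ _ h1 h2 => by simpa using h1.prod h2
  have hR : ∀ (G : Type) [Group G], IsLcm G 1 → ∀ e : ℕ, IsLcm G e → ∀ v : ℝ, Val R G v →
      ∃ z : ℤ, (e : ℝ) * v = z := by
    intro G _ hG e he v hv
    obtain rfl := isLcm_unique hG he
    by_contra hcon
    obtain ⟨m, ρ, hρ, hρ0, hρ1⟩ := val_small hG hv hcon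
    have hρ1' : ρ < 1 := by simpa using hρ1
    have hd' : (0 : ℝ) < d := by exact_mod_cast hd
    have hD' : (0 : ℝ) < D := by exact_mod_cast hD
    obtain ⟨k, hk⟩ := exists_pow_lt hρ0 hρ1' (show (0 : ℝ) < d / D by positivity)
    obtain ⟨H, _, hH, e, w, he, hw, hew⟩ := powers (fun G _ => IsLcm G 1) hprod (hG.coprod m)
      (hG.coprod m) hρ k
    obtain rfl := isLcm_unique hH he
    simp only [Nat.cast_one, one_mul] at hew
    have h1 : Val R (H × Multiplicative (ZMod d)) (w * (1 / d)) := val_mul hw (val_cyc R hd)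
    have h2 : IsLcm (H × Multiplicative (ZMod d)) d := by simpa using hH.prod (isLcm_cyc hd)
    obtain ⟨j, hj⟩ := h ⟨_, inferInstance, h2, h1⟩
    have hw0 : 0 < w := by rw [hew]; positivity
    have hj0 : 0 < (j : ℝ) / D := by rw [← hj]; positivity
    have hj1 : 1 ≤ j := by
      by_contra hc
      have : j = 0 := by omega
      rw [this] at hj0
      simp at hj0
    have hj1' : (1 : ℝ) ≤ j := by exact_mod_cast hj1
    have h3 : (1 : ℝ) / D ≤ w * (1 / d) := by
      rw [hj]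
      gcongr
    rw [← hew] at hk
    have h4 : w * (1 / d) < 1 / D := by
      rw [lt_div_iff₀ hD'] at hk ⊢
      rw [mul_one_div, div_mul_eq_mul_div, div_lt_one hd']
      exact hk
    linarith
  have h1 := base_change (fun G _ => IsLcm G 1) hprod (fun G _ m h1 => h1.coprod m) R hR ⊤ G hG 1
    hG v hv
  simpa using h1

/-- **The criterion for all groups with the lcm `d`.** -/
theorem class_gap (R : Subring ℂ) {d : ℕ} (hd : 0 < d) :
    List.TFAE [∀ (G : Type) [Group G], IsLcm G d → ∀ v ∈ VG R G, ∃ z : ℤ, (d : ℝ) * v = z,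
      ∀ (G : Type) [Group G], IsLcm G d → ∀ v ∈ VG R G, ¬ (0 < v ∧ v < 1 / d),
      ∀ (G : Type) [Group G], IsLcm G d → ∃ a b : ℝ, 0 ≤ a ∧ 1 / (2 * (d : ℝ)) < b - a ∧
        ∀ v ∈ VG R G, ¬ (a < v ∧ v < b)] := by
  have hd0 : (0 : ℝ) < d := by exact_mod_cast hd
  tfae_have 1 → 2 := by
    rintro h G _ hG v hv ⟨h0, h1⟩
    obtain ⟨z, hz⟩ := h G hG v hv
    rw [lt_div_iff₀ hd0] at h1
    have h2 : (0 : ℝ) < z := by rw [← hz]; positivity
    have h3 : (z : ℝ) < 1 := by rw [← hz]; linarith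
    have h2' : 0 < z := by exact_mod_cast h2
    have h3' : z < 1 := by exact_mod_cast h3
    omega
  tfae_have 2 → 3 := by
    intro h G _ hG
    refine ⟨0, 1 / d, le_rfl, ?_, h G hG⟩
    rw [sub_zero]
    apply one_div_lt_one_div_of_lt hd0
    linarith
  tfae_have 3 → 1 := by
    intro h
    rcases class_dich R hd with ⟨D, hD, hdD, hV⟩ | ⟨Γ, _, hΓ, hden⟩
    · by_cases hne : D = d
      · subst hne
        intro G _ hG v hv
        have : v ∈ VC R D := ⟨G, inferInstance, hG, hv⟩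
        rw [hV] at this
        exact int_of_mult hD this
      · exfalso
        obtain ⟨Γ, _, hΓ, hall⟩ := collect (R := R) (d := d) (fun k : ℕ => (k : ℝ) / D)
          (fun k => by rw [hV]; exact ⟨k, rfl⟩)
        obtain ⟨a, b, ha, hab, hgap⟩ := h Γ hΓ
        obtain ⟨k, hk1, hk2⟩ := exists_mult hD ha (lt_of_le_of_lt (le_half hd hdD hD hne) hab)
        exact hgap _ (hall k) ⟨hk1, hk2⟩
    · exfalso
      obtain ⟨a, b, ha, hab, hgap⟩ := h Γ hΓ
      have : a < b := by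
        have : 0 < 1 / (2 * (d : ℝ)) := by positivity
        linarith
      obtain ⟨v, hv, h1, h2⟩ := hden a b ha this
      exact hgap v hv ⟨h1, h2⟩
  tfae_finish

end Pool.Agent.K3h37.UD
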