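import Pool.Agent.K3h37.UD.Trans

/-!
# A maximal coefficient ring: all complex numbers are algebraic over it
-/

set_option autoImplicit false
set_option linter.unusedSectionVars false

open scoped InnerProductSpace ENNReal
open Filter Topology

namespace Pool.Agent.K3h37.UD

open Pool.Agent.H80R2
open Pool.Agent.H80R2.BC (L2 GMat vdim IsTr LInv Equi act kerA dk pt vals TorDiv Coef AtR Generic)
open Pool.Agent.H812R3
open Pool.Agent.W656.VA hiding stage1 stage2

variable {ι κ ι' κ' μ ν G : Type} [Group G] [Fintype ι] [Fintype κ] [Fintype κ'] [Fintype ι']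
  [Fintype μ] [Fintype ν]

/-- **Adjoining an element with integrality along pencils.** -/
theorem adjoin_pint (C : (G : Type) → [Group G] → Prop) (R : Subring ℂ) {d : ℕ} (z : ℂ)
    (hz : PInt C R d z) :
    ∀ (G : Type) [Group G], C G → ∀ v : ℝ,
      Val (Polynomial.eval₂RingHom R.subtype z).range G v → ∃ n : ℤ, (d : ℝ) * v = n := by
  classical
  intro G _ hG v hv
  obtain ⟨m, n, A, hA, rfl⟩ := hv
  -- the polynomials
  have h1 : ∀ (k : Fin n) (p : Fin m) (g : G), ∃ q : Polynomial R,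
      q.eval₂ R.subtype z = A k p g ∧ (A k p g = 0 → q = 0) := by
    intro k p g
    by_cases h0 : A k p g = 0
    · exact ⟨0, by rw [h0, Polynomial.eval₂_zero], fun _ => rfl⟩
    · obtain ⟨q, hq⟩ := hA k p g
      exact ⟨q, hq, fun h => absurd h h0⟩
  choose q hq1 hq2 using h1
  set D : ℕ := ∑ k, ∑ p, ∑ g ∈ (A k p).support, (q k p g).natDegree with hD
  have hdeg : ∀ k p g, (q k p g).natDegree < D + 1 := by
    intro k p g
    by_cases h0 : A k p g = 0
    · rw [hq2 k p g h0]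
      simp
    · have h2 : g ∈ (A k p).support := Finsupp.mem_support_iff.2 h0
      have e1 := Finset.single_le_sum (f := fun g => (q k p g).natDegree)
        (fun _ _ => Nat.zero_le _) h2
      have e2 := Finset.single_le_sum
        (f := fun p => ∑ g ∈ (A k p).support, (q k p g).natDegree)
        (fun _ _ => Nat.zero_le _) (Finset.mem_univ p)
      have e3 := Finset.single_le_sum
        (f := fun k => ∑ p, ∑ g ∈ (A k p).support, (q k p g).natDegree)
        (fun _ _ => Nat.zero_le _) (Finset.mem_univ k)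
      exact Nat.lt_succ_of_le ((e1.trans e2).trans e3)
  let B : GMat (Fin n) (Fin m × Fin (D + 1)) G := fun k p =>
    Finsupp.onFinset (A k p.1).support (fun g => (((q k p.1 g).coeff p.2 : R) : ℂ)) (by
      intro g hg
      rw [Finsupp.mem_support_iff]
      intro h0
      apply hg
      rw [hq2 k p.1 g h0]
      simp)
  have hB : Coef R B := by
    intro k p g
    exact ((q k p.1 g).coeff p.2).2
  have hev : ev (geo z D) B = A := by
    funext k p
    ext g
    unfold ev
    rw [Finsupp.finsetSum_apply, ← hq1 k p g, Polynomial.eval₂_eq_sum_range' _ (hdeg k p g),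
      Finset.sum_range]
    refine Finset.sum_congr rfl fun i _ => ?_
    rw [Finsupp.smul_apply, smul_eq_mul, mul_comm]
    rfl
  obtain ⟨r, hr⟩ := hz G hG _ _ (cp0 B) (cp1 (Fin n) (Fin m) G D) (coef_cp0 hB) (coef_cp1 D)
  rw [kz_cp, hev] at hr
  exact ⟨r, hr⟩

/-! ### a maximal ring -/

/-- a finite set of elements of the members of a chain lies in one member -/
theorem chain_finset {c : Set (Subring ℂ)} (hc : IsChain (· ≤ ·) c) (hne : c.Nonempty)
    (T : Finset ℂ) (hT : ∀ t ∈ T, ∃ S ∈ c, t ∈ S) : ∃ S ∈ c, ∀ t ∈ T, t ∈ S := by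
  classical
  induction T using Finset.induction_on with
  | empty =>
    obtain ⟨S, hS⟩ := hne
    exact ⟨S, hS, fun t ht => absurd ht (Finset.notMem_empty t)⟩
  | insert a T _ ih =>
    obtain ⟨S, hS, h1⟩ := ih fun t ht => hT t (Finset.mem_insert_of_mem ht)
    obtain ⟨S', hS', h2⟩ := hT a (Finset.mem_insert_self _ _)
    rcases hc.total hS hS' with h | h
    · refine ⟨S', hS', fun t ht => ?_⟩
      rcases Finset.mem_insert.1 ht with rfl | ht
      · exact h2
      · exact h (h1 t ht)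
    · refine ⟨S, hS, fun t ht => ?_⟩
      rcases Finset.mem_insert.1 ht with rfl | ht
      · exact h h2
      · exact h1 t ht

/-- the coefficients of a system -/
theorem coef_finset {m n : ℕ} (A : GMat (Fin n) (Fin m) G) : ∃ T : Finset ℂ,
    (∀ k p g, A k p g ≠ 0 → A k p g ∈ T) ∧ ∀ t ∈ T, ∃ k p g, A k p g = t := by
  classical
  refine ⟨Finset.univ.biUnion fun k => Finset.univ.biUnion fun p =>
    (A k p).support.image (A k p), ?_, ?_⟩
  · intro k p g h
    simp only [Finset.mem_biUnion, Finset.mem_univ, true_and, Finset.mem_image]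
    exact ⟨k, p, g, Finsupp.mem_support_iff.2 h, rfl⟩
  · intro t ht
    simp only [Finset.mem_biUnion, Finset.mem_univ, true_and, Finset.mem_image] at ht
    obtain ⟨k, p, g, -, h⟩ := ht
    exact ⟨k, p, g, h⟩

/-- **A maximal coefficient ring.** -/
theorem exists_max (C : (G : Type) → [Group G] → Prop) (R : Subring ℂ) {d : ℕ}
    (hR : ∀ (G : Type) [Group G], C G → ∀ v : ℝ, Val R G v → ∃ z : ℤ, (d : ℝ) * v = z) :
    ∃ K : Subring ℂ, R ≤ K ∧
      (∀ (G : Type) [Group G], C G → ∀ v : ℝ, Val K G v → ∃ z : ℤ, (d : ℝ) * v = z) ∧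
      ∀ c : ℂ, PInt C K d c → c ∈ K := by
  obtain ⟨K, hRK, hK⟩ := zorn_le_nonempty₀
    {S : Subring ℂ | ∀ (G : Type) [Group G], C G → ∀ v : ℝ, Val S G v → ∃ z : ℤ, (d : ℝ) * v = z}
    (by
      intro c hcs hc y hy
      refine ⟨sSup c, ?_, fun z hz => le_sSup hz⟩
      intro G _ hG v hv
      obtain ⟨m, n, A, hA, rfl⟩ := hv
      obtain ⟨T, hT1, hT2⟩ := coef_finset A
      obtain ⟨S, hS, h1⟩ := chain_finset hc ⟨y, hy⟩ T (by
        intro t ht
        obtain ⟨k, p, g, rfl⟩ := hT2 t ht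
        exact (Subring.mem_sSup_of_directedOn ⟨y, hy⟩ hc.directedOn).1 (hA k p g))
      refine hcs hS G hG _ ⟨m, n, A, ?_, rfl⟩
      intro k p g
      by_cases h0 : A k p g = 0
      · rw [h0]; exact S.zero_mem
      · exact h1 _ (hT1 k p g h0)) R hR
  refine ⟨K, hRK, hK.prop, ?_⟩
  intro c hc
  have h1 := adjoin_pint C K c hc
  have h2 : K ≤ (Polynomial.eval₂RingHom K.subtype c).range := by
    intro x hx
    exact ⟨Polynomial.C ⟨x, hx⟩, by simp⟩
  have h3 := hK.le_of_ge (y := (Polynomial.eval₂RingHom K.subtype c).range) h1 h2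
  exact h3 ⟨Polynomial.X, by simp⟩

theorem pint_inv (C : (G : Type) → [Group G] → Prop) (K : Subring ℂ) {d : ℕ}
    (hK : ∀ (G : Type) [Group G], C G → ∀ v : ℝ, Val K G v → ∃ z : ℤ, (d : ℝ) * v = z) {a : ℂ}
    (ha : a ∈ K) (h0 : a ≠ 0) : PInt C K d a⁻¹ := by
  intro G _ hG κ ι _ _ M0 M1 hM0 hM1
  have h1 : kz M0 M1 a⁻¹ = vdim (kerA (BC.pen M1 M0 a)) := by
    unfold kz
    congr 1
    ext x
    rw [mem_kerA, mem_kerA]
    have key : ∀ (k : κ) (g : G), act (BC.pen M1 M0 a) x k g =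
        a * act (BC.pen M0 M1 a⁻¹) x k g := by
      intro k g
      rw [act_pen, act_pen]
      field_simp
      ring
    constructor
    · intro h k g
      rw [key, h k g, mul_zero]
    · intro h k g
      exact (mul_eq_zero.1 ((key k g).symm.trans (h k g))).resolve_left h0
  rw [h1]
  exact hK G hG _ (val_of _ (coef_pen hM1 hM0 ha))

/-- the maximal ring as a field -/
def toF (K : Subring ℂ) (h : ∀ x ∈ K, x⁻¹ ∈ K) : Subfield ℂ := { K with inv_mem' := h }

theorem mem_toF (K : Subring ℂ) (h : ∀ x ∈ K, x⁻¹ ∈ K) (x : ℂ) : x ∈ toF K h ↔ x ∈ K := Iff.rfl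

/-- **All complex numbers are algebraic over the maximal ring.** -/
theorem alg_over (C : (G : Type) → [Group G] → Prop)
    (hfree : ∀ (G : Type) [Group G] (m : ℕ), C G → C (Monoid.Coprod G (FreeGroup (Fin m))))
    (hjoin : ∀ (G G' : Type) [Group G] [Group G'], C G → C G' → ∃ (Γ : Type) (_ : Group Γ), C Γ ∧
      (∃ f : G →* Γ, Function.Injective f) ∧ ∃ f : G' →* Γ, Function.Injective f)
    (K : Subring ℂ) {d : ℕ} (hd : 0 < d)
    (hK : ∀ (G : Type) [Group G], C G → ∀ v : ℝ, Val K G v → ∃ z : ℤ, (d : ℝ) * v = z)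
    (hmax : ∀ c : ℂ, PInt C K d c → c ∈ K) (F : Subfield ℂ) (hF : ∀ x, x ∈ F ↔ x ∈ K) (z : ℂ) :
    IsAlgebraic F z := by
  classical
  by_cases hz : PInt C K d z
  · have h1 : z ∈ F := (hF z).2 (hmax z hz)
    exact isAlgebraic_algebraMap (⟨z, h1⟩ : F)
  unfold PInt at hz
  push Not at hz
  obtain ⟨G, _, hG, κ, ι, _, _, P0, P1, hP0, hP1, hno⟩ := hz
  have hd0 : (0 : ℝ) < d := by exact_mod_cast hd
  have h1 : ∃ a : ℤ, (a : ℂ) ≠ z ∧ kz P0 P1 a < kz P0 P1 z := by
    by_contra hc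
    push Not at hc
    set b0 : ℝ := (⌈(d : ℝ) * kz P0 P1 z⌉ : ℝ) / d with hb0
    have h2 : ∀ a : ℤ, (a : ℂ) ≠ z → b0 ≤ kz P0 P1 a := by
      intro a ha
      have h3 := hc a ha
      obtain ⟨n, hn⟩ := hK G hG _ (val_of _ (coef_pen hP0 hP1 (a := (a : ℂ)) (by
        exact intCast_mem K a)))
      have h4 : (d : ℝ) * kz P0 P1 z ≤ n := by
        rw [← hn]
        unfold kz at h3 ⊢
        gcongr
      have h5 : ⌈(d : ℝ) * kz P0 P1 z⌉ ≤ n := Int.ceil_le.2 h4
      rw [hb0, div_le_iff₀ hd0]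
      have h6 : (⌈(d : ℝ) * kz P0 P1 z⌉ : ℝ) ≤ n := by exact_mod_cast h5
      unfold kz at h6 ⊢
      linarith
    have h3 : {a : ℂ | b0 ≤ kz P0 P1 a}.Infinite := by
      have h4 : (Set.range (fun n : ℤ => (n : ℂ)) \ {z}).Infinite :=
        (Set.infinite_range_of_injective Int.cast_injective).sdiff (Set.finite_singleton z)
      refine h4.mono ?_
      rintro _ ⟨⟨a, rfl⟩, ha⟩
      exact h2 a (fun h => ha h)
    have h4 := semicont P0 P1 b0 h3 z
    rw [hb0, div_le_iff₀ hd0] at h4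
    have h5 := Int.le_ceil ((d : ℝ) * kz P0 P1 z)
    exact hno _ (le_antisymm h5 (by linarith))
  obtain ⟨a, ha, hlt⟩ := h1
  have hza : z - a ≠ 0 := sub_ne_zero.2 (Ne.symm ha)
  have hmem : (a : ℂ) ∈ K := intCast_mem K a
  obtain ⟨N, hN, hN2⟩ := exists_frac (vdim_nonneg _ : 0 ≤ kz P0 P1 a) hlt
  obtain ⟨j, hj1, hj2⟩ := hN2 N le_rfl
  obtain ⟨n, J, c, hJ, hc, hzn⟩ := exc_eq C hfree hjoin K hd hK hG P1 (BC.pen P0 P1 a) hP1
    (coef_pen hP0 hP1 hmem) (z - a)⁻¹ hN hj1 (by rw [kz_move _ _ _ _ hza]; exact hj2)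
  -- the equation
  have hcK : ∀ k ∈ J, c k ∈ F := fun k hk => (hF _).2 (hmax _ (hc k hk))
  have h2 : ∀ k, ∃ c' : F, k ∈ J → (c' : ℂ) = c k := by
    intro k
    by_cases hk : k ∈ J
    · exact ⟨⟨c k, hcK k hk⟩, fun _ => rfl⟩
    · exact ⟨0, fun h => absurd h hk⟩
  choose c' hc' using h2
  have halg : IsAlgebraic F (z - a)⁻¹ := by
    refine ⟨Polynomial.X ^ n - ∑ k ∈ J, Polynomial.C (c' k) * Polynomial.X ^ k, ?_, ?_⟩
    · intro h0
      have h3 := congrArg (fun p => Polynomial.coeff p n) h0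
      simp only [Polynomial.coeff_sub, Polynomial.coeff_X_pow, if_true, Polynomial.finset_sum_coeff,
        Polynomial.coeff_C_mul, Polynomial.coeff_zero] at h3
      rw [Finset.sum_eq_zero, sub_zero] at h3
      · exact one_ne_zero h3
      · intro k hk
        rw [if_neg (hJ k hk).ne', mul_zero]
    · rw [map_sub, map_pow, Polynomial.aeval_X, map_sum, hzn, sub_eq_zero]
      refine Finset.sum_congr rfl fun k hk => ?_
      rw [map_mul, map_pow, Polynomial.aeval_X, Polynomial.aeval_C, mul_comm, ← hc' k hk]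
      rfl
  have h3 : IsAlgebraic F (z - a) := by
    have := halg.inv
    rwa [inv_inv] at this
  have h4 : IsAlgebraic F (a : ℂ) := by
    have : (a : ℂ) = algebraMap F ℂ (a : F) := by simp
    rw [this]
    exact isAlgebraic_algebraMap _
  have h5 := h3.add h4
  rwa [sub_add_cancel] at h5

end Pool.Agent.K3h37.UD
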