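import Pool.Agent.K3h37.UD.One

/-!
# A field of coefficients over which all complex numbers are algebraic
-/

set_option autoImplicit false
set_option linter.unusedSectionVars false

namespace Pool.Agent.K3h37.UD

open Pool.Agent.H80R2.BC (TorDiv)
open Pool.Agent.W656.VA hiding stage1 stage2

/-- **A large field of coefficients.** -/
theorem exists_field (C : (G : Type) → [Group G] → Prop)
    (hfree : ∀ (G : Type) [Group G] (m : ℕ), C G → C (Monoid.Coprod G (FreeGroup (Fin m))))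
    (hjoin : ∀ (G G' : Type) [Group G] [Group G'], C G → C G' → ∃ (Γ : Type) (_ : Group Γ), C Γ ∧
      (∃ f : G →* Γ, Function.Injective f) ∧ ∃ f : G' →* Γ, Function.Injective f)
    (R : Subring ℂ) {d : ℕ} (hd : 0 < d)
    (hR : ∀ (G : Type) [Group G], C G → ∀ v : ℝ, Val R G v → ∃ z : ℤ, (d : ℝ) * v = z) :
    ∃ K : Subfield ℂ, R ≤ K.toSubring ∧ (∀ z : ℂ, IsAlgebraic K z) ∧
      ∀ (G : Type) [Group G], C G → ∀ v : ℝ, Val K.toSubring G v → ∃ z : ℤ, (d : ℝ) * v = z := by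
  obtain ⟨K, hRK, hK, hmax⟩ := exists_max C R hR
  have hinv : ∀ x ∈ K, x⁻¹ ∈ K := by
    intro x hx
    by_cases h0 : x = 0
    · rw [h0, inv_zero]; exact K.zero_mem
    · exact hmax _ (pint_inv C K hK hx h0)
  refine ⟨toF K hinv, hRK, alg_over C hfree hjoin K hd hK hmax (toF K hinv)
    (fun x => mem_toF K hinv x), hK⟩

/-- one group -/
theorem one_field {R : Subring ℂ} {G : Type} [Group G] {D : ℕ} (hD : 0 < D)
    (h : VG R (Inf G) = Mult D) : ∃ K : Subfield ℂ, R ≤ K.toSubring ∧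
      (∀ z : ℂ, IsAlgebraic K z) ∧ VG K.toSubring (Inf G) = Mult D := by
  obtain ⟨K, h1, h2, h3⟩ := exists_field (fun G' _ => One G G') (fun G' _ m => one_free G G' m)
    (fun G' G'' _ _ => one_join G G' G'') R hD (fun G' _ => one_int hD h G')
  refine ⟨K, h1, h2, ?_⟩
  have h4 : ∀ v ∈ VG K.toSubring (Inf G), ∃ z : ℤ, (D : ℝ) * v = z :=
    fun v hv => h3 (Inf G) (inf_inf G) v hv
  rcases (adm_inf K.toSubring G).dich with ⟨D', hD', hV⟩ | h5
  · obtain ⟨m, hm1, hm2, hm3⟩ := mult_ext (e := 1) hD hD' h hV (fun v hv => val_mono h1 hv)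
      (fun v hv => ⟨1, le_rfl, le_rfl, by
        obtain ⟨z, hz⟩ := h4 v hv
        exact ⟨z, by rw [← hz]; push_cast; ring⟩⟩)
    have : m = 1 := le_antisymm hm2 hm1
    rw [hm3, this, mul_one]
  · exact absurd h5 (not_dns hD h4)

/-- all groups with the least common multiple `d` -/
theorem class_field {R : Subring ℂ} {d : ℕ} (hd : 0 < d) {D : ℕ} (hD : 0 < D)
    (h : VC R d = Mult D) : ∃ K : Subfield ℂ, R ≤ K.toSubring ∧
      (∀ z : ℂ, IsAlgebraic K z) ∧ VC K.toSubring d = Mult D := by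
  have h1 : ∀ (G' : Type) [Group G'], IsLcm G' d → ∀ v : ℝ, Val R G' v →
      ∃ z : ℤ, (D : ℝ) * v = z := by
    intro G' _ hG' v hv
    have h2 : v ∈ VC R d := ⟨G', inferInstance, hG', hv⟩
    rw [h] at h2
    exact int_of_mult hD h2
  obtain ⟨K, h2, h3, h4⟩ := exists_field (fun G' _ => IsLcm G' d) (fun G' _ m => class_free d G' m)
    (fun G' G'' _ _ => class_join d G' G'') R hD (fun G' _ => h1 G')
  refine ⟨K, h2, h3, ?_⟩
  have h5 : ∀ v ∈ VC K.toSubring d, ∃ z : ℤ, (D : ℝ) * v = z := by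
    rintro v ⟨G, _, hG, hv⟩
    exact h4 G hG v hv
  rcases class_dich K.toSubring hd with ⟨D', hD', -, hV⟩ | ⟨Γ, _, hΓ, h6⟩
  · obtain ⟨m, hm1, hm2, hm3⟩ := mult_ext (e := 1) hD hD' h hV (by
      rintro v ⟨G, _, hG, hv⟩
      exact ⟨G, inferInstance, hG, val_mono h2 hv⟩)
      (fun v hv => ⟨1, le_rfl, le_rfl, by
        obtain ⟨z, hz⟩ := h5 v hv
        exact ⟨z, by rw [← hz]; push_cast; ring⟩⟩)
    have : m = 1 := le_antisymm hm2 hm1
    rw [hm3, this, mul_one]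
  · exact absurd h6 (not_dns hD fun v hv => h4 Γ hΓ v hv)

end Pool.Agent.K3h37.UD
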