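import Pool.Agent.K3h37.UD.Ext

/-!
# One group, and all groups with the same least common multiple
-/

set_option autoImplicit false
set_option linter.unusedSectionVars false

namespace Pool.Agent.K3h37.UD

open Pool.Agent.H80R2.BC (TorDiv)
open Pool.Agent.W656.VA hiding stage1 stage2

/-- `(G * F_X) * F_Y → G * F_Z` -/
noncomputable def ab2 (G : Type) [Group G] {X Y Z : Type} (s : X ⊕ Y → Z) :
    Monoid.Coprod (Monoid.Coprod G (FreeGroup X)) (FreeGroup Y) →* Monoid.Coprod G (FreeGroup Z) :=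
  Monoid.Coprod.lift
    (Monoid.Coprod.lift Monoid.Coprod.inl
      (FreeGroup.lift fun x : X => Monoid.Coprod.inr (FreeGroup.of (s (Sum.inl x)))))
    (FreeGroup.lift fun y : Y => Monoid.Coprod.inr (FreeGroup.of (s (Sum.inr y))))

/-- The map back. -/
noncomputable def un2 (G : Type) [Group G] {X Y Z : Type} (s : X ⊕ Y → Z) :
    Monoid.Coprod G (FreeGroup Z) →* Monoid.Coprod (Monoid.Coprod G (FreeGroup X)) (FreeGroup Y) :=
  Monoid.Coprod.lift (Monoid.Coprod.inl.comp Monoid.Coprod.inl)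
    (FreeGroup.lift (Function.extend s
      (Sum.elim (fun x => Monoid.Coprod.inl (Monoid.Coprod.inr (FreeGroup.of x)))
        (fun y => Monoid.Coprod.inr (FreeGroup.of y))) (fun _ => 1)))

theorem un2_ab2 (G : Type) [Group G] {X Y Z : Type} {s : X ⊕ Y → Z} (hs : Function.Injective s) :
    (un2 G s).comp (ab2 G s) = MonoidHom.id _ := by
  apply Monoid.Coprod.hom_ext
  · apply Monoid.Coprod.hom_ext
    · ext g
      simp [ab2, un2]
    · ext n
      simp [ab2, un2, hs.extend_apply]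
  · ext i
    simp [ab2, un2, hs.extend_apply]

theorem ab2_injective (G : Type) [Group G] {X Y Z : Type} {s : X ⊕ Y → Z}
    (hs : Function.Injective s) : Function.Injective (ab2 G s) := by
  intro x y h
  have h1 := DFunLike.congr_fun (un2_ab2 G hs)
  have hx := h1 x
  have hy := h1 y
  simp only [MonoidHom.comp_apply, MonoidHom.id_apply] at hx hy
  rw [← hx, ← hy, h]

theorem inf_free (G : Type) [Group G] (m : ℕ) :
    ∃ f : Inf (Monoid.Coprod G (FreeGroup (Fin m))) →* Inf G, Function.Injective f := by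
  obtain ⟨s, hs⟩ := exists_injective_nat (Fin m ⊕ ℕ)
  exact ⟨ab2 G s, ab2_injective G hs⟩

theorem inf_inf (G : Type) [Group G] : ∃ f : Inf (Inf G) →* Inf G, Function.Injective f := by
  obtain ⟨s, hs⟩ := exists_injective_nat (ℕ ⊕ ℕ)
  exact ⟨ab2 G s, ab2_injective G hs⟩

/-- the class of one group -/
def One (G G' : Type) [Group G] [Group G'] : Prop := ∃ f : Inf G' →* Inf G, Function.Injective f

theorem one_free (G : Type) [Group G] (G' : Type) [Group G'] (m : ℕ) (h : One G G') :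
    One G (Monoid.Coprod G' (FreeGroup (Fin m))) := by
  obtain ⟨f, hf⟩ := h
  obtain ⟨g, hg⟩ := inf_free G' m
  exact ⟨f.comp g, hf.comp hg⟩

theorem one_emb {G : Type} [Group G] {G' : Type} [Group G'] (h : One G G') :
    ∃ f : G' →* Inf G, Function.Injective f := by
  obtain ⟨f, hf⟩ := h
  exact ⟨f.comp Monoid.Coprod.inl, hf.comp Monoid.Coprod.inl_injective⟩

theorem one_join (G : Type) [Group G] (G' G'' : Type) [Group G'] [Group G''] (h' : One G G')
    (h'' : One G G'') : ∃ (Γ : Type) (_ : Group Γ), One G Γ ∧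
      (∃ f : G' →* Γ, Function.Injective f) ∧ ∃ f : G'' →* Γ, Function.Injective f :=
  ⟨Inf G, inferInstance, inf_inf G, one_emb h', one_emb h''⟩

theorem one_int {R : Subring ℂ} {G : Type} [Group G] {D : ℕ} (hD : 0 < D)
    (h : VG R (Inf G) = Mult D) (G' : Type) [Group G'] (hG' : One G G') (v : ℝ) (hv : Val R G' v) :
    ∃ z : ℤ, (D : ℝ) * v = z := by
  obtain ⟨f, hf⟩ := one_emb hG'
  have h1 : v ∈ VG R (Inf G) := val_incl f hf hv
  rw [h] at h1
  exact int_of_mult hD h1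

theorem not_dns {V : Set ℝ} {N : ℕ} (hN : 0 < N) (h : ∀ v ∈ V, ∃ z : ℤ, (N : ℝ) * v = z) :
    ¬ Dns V := by
  intro hd
  have hN' : (0 : ℝ) < N := by exact_mod_cast hN
  obtain ⟨v, hv, h0, h1⟩ := hd 0 (1 / N) le_rfl (by positivity)
  obtain ⟨z, hz⟩ := h v hv
  have h2 : (0 : ℝ) < z := by rw [← hz]; positivity
  have h3 : (z : ℝ) < 1 := by
    rw [← hz, mul_comm]
    rwa [lt_div_iff₀ hN'] at h1
  have h4 : 0 < z := by exact_mod_cast h2
  have h5 : z < 1 := by exact_mod_cast h3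
  omega

/-- **One group.** -/
theorem one_main {R : Subring ℂ} {G : Type} [Group G] (h : ¬ Dns (VG R (Inf G))) :
    (∀ v ∈ VG ⊤ (Inf G), ∃ q : ℚ, v = q) ∧
      ∀ S : Finset ℂ, ∃ D : ℕ, 0 < D ∧
        VG (Subring.closure ((R : Set ℂ) ∪ S)) (Inf G) = Mult D := by
  rcases (adm_inf R G).dich with ⟨D, hD, hV⟩ | h'
  swap
  · exact absurd h' h
  have h1 := one_int hD hV
  refine ⟨fun v hv => final_rat (fun G' _ => One G G') (fun G' _ m => one_free G G' m)
    (fun G' G'' _ _ => one_join G G' G'') R hD (fun G' _ => h1 G') (Inf G) (inf_inf G) v hv, ?_⟩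
  intro S
  obtain ⟨N, hN, h2⟩ := final_bdd (fun G' _ => One G G') (fun G' _ m => one_free G G' m)
    (fun G' G'' _ _ => one_join G G' G'') R hD (fun G' _ => h1 G') S
  rcases (adm_inf (Subring.closure ((R : Set ℂ) ∪ S)) G).dich with h3 | h3
  · exact h3
  · exact absurd h3 (not_dns hN fun v hv => h2 (Inf G) (inf_inf G) v hv)

theorem class_free (d : ℕ) (G' : Type) [Group G'] (m : ℕ) (h : IsLcm G' d) :
    IsLcm (Monoid.Coprod G' (FreeGroup (Fin m))) d := h.coprod m

theorem class_join (d : ℕ) (G' G'' : Type) [Group G'] [Group G''] (h' : IsLcm G' d)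
    (h'' : IsLcm G'' d) : ∃ (Γ : Type) (_ : Group Γ), IsLcm Γ d ∧
      (∃ f : G' →* Γ, Function.Injective f) ∧ ∃ f : G'' →* Γ, Function.Injective f := by
  let M : Bool → Type := fun b => if b then G' else G''
  let _ : ∀ b, Group (M b) := fun b => match b with
    | true => (inferInstance : Group G')
    | false => (inferInstance : Group G'')
  refine ⟨Monoid.CoprodI M, inferInstance, isLcm_coprodI true fun b => ?_,
    ⟨(Monoid.CoprodI.of : M true →* Monoid.CoprodI M), Monoid.CoprodI.of_injective true⟩,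
    ⟨(Monoid.CoprodI.of : M false →* Monoid.CoprodI M), Monoid.CoprodI.of_injective false⟩⟩
  cases b
  · exact h''
  · exact h'

/-- **All groups with the least common multiple `d`.** -/
theorem class_main {R : Subring ℂ} {d : ℕ} (hd : 0 < d)
    (h : ∀ (G : Type) [Group G], IsLcm G d → ¬ Dns (VG R G)) :
    (∀ (G : Type) [Group G], IsLcm G d → ∀ v ∈ VG ⊤ G, ∃ q : ℚ, v = q) ∧
      ∀ S : Finset ℂ, ∃ D : ℕ, 0 < D ∧ d ∣ D ∧
        VC (Subring.closure ((R : Set ℂ) ∪ S)) d = Mult D := by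
  rcases class_dich R hd with ⟨D, hD, -, hV⟩ | ⟨Γ, _, hΓ, h'⟩
  swap
  · exact absurd h' (h Γ hΓ)
  have h1 : ∀ (G' : Type) [Group G'], IsLcm G' d → ∀ v : ℝ, Val R G' v → ∃ z : ℤ, (D : ℝ) * v = z := by
    intro G' _ hG' v hv
    have h2 : v ∈ VC R d := ⟨G', inferInstance, hG', hv⟩
    rw [hV] at h2
    exact int_of_mult hD h2
  refine ⟨fun G _ hG v hv => final_rat (fun G' _ => IsLcm G' d) (fun G' _ m => class_free d G' m)
    (fun G' G'' _ _ => class_join d G' G'') R hD (fun G' _ => h1 G') G hG v hv, ?_⟩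
  intro S
  obtain ⟨N, hN, h2⟩ := final_bdd (fun G' _ => IsLcm G' d) (fun G' _ m => class_free d G' m)
    (fun G' G'' _ _ => class_join d G' G'') R hD (fun G' _ => h1 G') S
  rcases class_dich (Subring.closure ((R : Set ℂ) ∪ S)) hd with h3 | ⟨Γ, _, hΓ, h3⟩
  · exact h3
  · exact absurd h3 (not_dns hN fun v hv => h2 Γ hΓ v hv)

theorem mult_ext {V V' : Set ℝ} {D D' e : ℕ} (hD : 0 < D) (hD' : 0 < D') (hV : V = Mult D)
    (hV' : V' = Mult D') (hle : V ⊆ V')
    (h2 : ∀ v ∈ V', ∃ m : ℕ, 1 ≤ m ∧ m ≤ e ∧ ∃ z : ℤ, (D : ℝ) * m * v = z) :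
    ∃ m : ℕ, 1 ≤ m ∧ m ≤ e ∧ V' = Mult (D * m) := by
  have h4 : (1 / (D' : ℝ)) ∈ V' := by
    rw [hV']; exact ⟨1, by simp⟩
  obtain ⟨m, hm1, hm2, z, hz⟩ := h2 _ h4
  have h5 : (1 / (D : ℝ)) ∈ Mult D' := by
    rw [← hV']
    apply hle
    rw [hV]
    exact ⟨1, by simp⟩
  obtain ⟨c, hc⟩ := dvd_of_inv hD hD' h5
  have hD0 : (0 : ℝ) < D := by exact_mod_cast hD
  have hc0 : 0 < c := Nat.pos_of_ne_zero (by rintro rfl; simp at hc; omega)
  have hc0' : (0 : ℝ) < c := by exact_mod_cast hc0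
  have h6 : (m : ℝ) = c * z := by
    rw [hc] at hz
    push_cast at hz
    field_simp at hz
    linarith
  have hm0 : (0 : ℝ) < m := by exact_mod_cast hm1
  have h7 : (0 : ℝ) < z := by
    by_contra hcon
    push Not at hcon
    nlinarith
  have h8 : (1 : ℝ) ≤ z := by
    have : 0 < z := by exact_mod_cast h7
    exact_mod_cast this
  have h9 : c ≤ m := by
    have : (c : ℝ) ≤ m := by rw [h6]; nlinarith
    exact_mod_cast this
  exact ⟨c, hc0, h9.trans hm2, by rw [hV', hc]⟩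

theorem fact_int {V' : Set ℝ} {D e : ℕ}
    (h2 : ∀ v ∈ V', ∃ m : ℕ, 1 ≤ m ∧ m ≤ e ∧ ∃ z : ℤ, (D : ℝ) * m * v = z) :
    ∀ v ∈ V', ∃ z : ℤ, ((D * e.factorial : ℕ) : ℝ) * v = z := by
  intro v hv
  obtain ⟨m, hm1, hm2, z, hz⟩ := h2 v hv
  obtain ⟨c, hc⟩ := Nat.dvd_factorial hm1 hm2
  refine ⟨c * z, ?_⟩
  rw [hc]
  push_cast
  rw [← hz]
  ring

theorem sub_ext (K : Subfield ℂ) (L : IntermediateField K ℂ) :
    K.toSubring ≤ L.toSubfield.toSubring := by
  intro x hx
  have h1 : algebraMap K ℂ ⟨x, hx⟩ ∈ L := L.algebraMap_mem _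
  exact h1

/-- **Finite extensions, one group.** -/
theorem one_ext {G : Type} [Group G] (K : Subfield ℂ) (L : IntermediateField K ℂ)
    [FiniteDimensional K L] {D : ℕ} (hD : 0 < D) (h : VG K.toSubring (Inf G) = Mult D) :
    ∃ m : ℕ, 1 ≤ m ∧ m ≤ Module.finrank K L ∧
      VG L.toSubfield.toSubring (Inf G) = Mult (D * m) := by
  have h2 : ∀ v ∈ VG L.toSubfield.toSubring (Inf G), ∃ m : ℕ, 1 ≤ m ∧ m ≤ Module.finrank K L ∧
      ∃ z : ℤ, (D : ℝ) * m * v = z := fun v hv =>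
    ext_int (fun G' _ => One G G') (fun G' _ m => one_free G G' m) K.toSubring
      (fun G' _ => one_int hD h G') K (fun x hx => hx) L (Inf G) (inf_inf G) v hv
  rcases (adm_inf L.toSubfield.toSubring G).dich with ⟨D', hD', hV⟩ | h3
  · exact mult_ext hD hD' h hV (fun v hv => val_mono (sub_ext K L) hv) h2
  · exact absurd h3 (not_dns (Nat.mul_pos hD (Nat.factorial_pos _)) (fact_int h2))

/-- **Finite extensions, all groups with the least common multiple `d`.** -/
theorem class_ext {d : ℕ} (hd : 0 < d) (K : Subfield ℂ) (L : IntermediateField K ℂ)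
    [FiniteDimensional K L] {D : ℕ} (hD : 0 < D) (h : VC K.toSubring d = Mult D) :
    ∃ m : ℕ, 1 ≤ m ∧ m ≤ Module.finrank K L ∧ VC L.toSubfield.toSubring d = Mult (D * m) := by
  have h1 : ∀ (G' : Type) [Group G'], IsLcm G' d → ∀ v : ℝ, Val K.toSubring G' v →
      ∃ z : ℤ, (D : ℝ) * v = z := by
    intro G' _ hG' v hv
    have h2 : v ∈ VC K.toSubring d := ⟨G', inferInstance, hG', hv⟩
    rw [h] at h2
    exact int_of_mult hD h2
  have h2 : ∀ v ∈ VC L.toSubfield.toSubring d, ∃ m : ℕ, 1 ≤ m ∧ m ≤ Module.finrank K L ∧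
      ∃ z : ℤ, (D : ℝ) * m * v = z := by
    rintro v ⟨G, _, hG, hv⟩
    exact ext_int (fun G' _ => IsLcm G' d) (fun G' _ m => class_free d G' m) K.toSubring
      (fun G' _ => h1 G') K (fun x hx => hx) L G hG v hv
  rcases class_dich L.toSubfield.toSubring hd with ⟨D', hD', -, hV⟩ | ⟨Γ, _, hΓ, h3⟩
  · exact mult_ext hD hD' h hV (by
      rintro v ⟨G, _, hG, hv⟩
      exact ⟨G, inferInstance, hG, val_mono (sub_ext K L) hv⟩) h2
  · exact absurd h3 (not_dns (Nat.mul_pos hD (Nat.factorial_pos _)) fun v hv =>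
      fact_int h2 v ⟨Γ, inferInstance, hΓ, hv⟩)

end Pool.Agent.K3h37.UD
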