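import Pool.Agent.W656.VB6
import Pool.Agent.K3h37.UD.Main

/-!
# Base change without direct products: rationality

The argument of helper656 (`W656.VB1` - `VB6`) for a class of groups which is only closed under free
products with free groups of finite rank, for example one group and its free products.
-/

set_option autoImplicit false
set_option linter.unusedSectionVars false

open scoped InnerProductSpace ENNReal
open Filter Topology

namespace Pool.Agent.K3h37.UD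

open Pool.Agent.H80R2
open Pool.Agent.H80R2.BC (L2 GMat vdim IsTr LInv Equi act kerA dk pt vals TorDiv Coef AtR Generic)
open Pool.Agent.H812R3
open Pool.Agent.W656.VA hiding stage1 stage2

variable {ι κ κ' μ ν G : Type} [Group G] [Fintype ι] [Fintype κ] [Fintype κ'] [Fintype μ]
  [Fintype ν]

/-- the dimension of an eigenvalue -/
theorem stage2 (C : (G : Type) → [Group G] → Prop)
    (hfree : ∀ (G : Type) [Group G] (m : ℕ), C G → C (Monoid.Coprod G (FreeGroup (Fin m))))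
    (R : Subring ℂ) {d : ℕ}
    (hR : ∀ (G : Type) [Group G], C G → ∀ v : ℝ, Val R G v → ∃ z : ℤ, (d : ℝ) * v = z)
    (hG : C G) (A : GMat κ (ι × μ) G) (hA : Coef R A)
    {Φ0 : Submodule ℂ (μ → ℂ)} (hΦ0 : kerA A ≤ pt Φ0) (T : (μ → ℂ) →ₗ[ℂ] (μ → ℂ))
    (hT : ∀ x ∈ kerA A, op (sc ι G T) x ∈ kerA A) {ψ : μ → ℂ} (hψ0 : ψ ≠ 0)
    (hker : ∀ φ ∈ Φ0, T φ = 0 → φ ∈ Submodule.span ℂ {ψ}) (hψT : T ψ = 0)
    (hs : 0 < fd A (Submodule.span ℂ {ψ})) :
    ∃ m : ℕ, 1 ≤ m ∧ ∃ z : ℤ, (d : ℝ) * m * fd A (Submodule.span ℂ {ψ}) = z := by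
  obtain ⟨m, hm1, -, z, hz⟩ := break_point (A := A) (d := d) (by
    intro N j hN
    exact hR _ (hfree G _ hG) _ (val_of _ (coef_ct N j hA)))
    hΦ0 T hT hψ0 hker hψT hs
  exact ⟨m, hm1, z, hz⟩

/-- Stage 1 of helper656, without direct products: the denominator is only bounded by the size of the
matrices. -/
theorem stage1 (C : (G : Type) → [Group G] → Prop)
    (hfree : ∀ (G : Type) [Group G] (m : ℕ), C G → C (Monoid.Coprod G (FreeGroup (Fin m))))
    (R : Subring ℂ) {d : ℕ} (hd : 0 < d)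
    (hR : ∀ (G : Type) [Group G], C G → ∀ v : ℝ, Val R G v → ∃ z : ℤ, (d : ℝ) * v = z)
    (hG : C G) (Q0 Q1 : GMat κ ι G) (hQ0 : Coef R Q0) (hQ1 : Coef R Q1)
    (z : ℂ) {N j : ℕ} (hN : 0 < N) (hf : vdim (kerA Q1) < (j : ℝ) / N)
    (hz : (j : ℝ) / N < kz Q0 Q1 z) :
    ∃ m : ℕ, 1 ≤ m ∧ ∃ n : ℤ, (d : ℝ) * m * (N * kz Q0 Q1 z - j) = n := by
  classical
  have hN' : (0 : ℝ) < N := by exact_mod_cast hN
  set θ : ℝ := (j : ℝ) / N with hθ
  have hjθ : (j : ℝ) = N * θ := by rw [hθ]; field_simp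
  let W : (l : ℕ) → GMat (κ × Fin l) (ι × Fin (l + 1)) G := fun l => BC.Tm Q0 Q1 l
  -- top maximizers
  have hF : ∀ l, ∃ Φ, IsMx (W l) θ Φ ∧ ∀ Ψ, IsMx (W l) θ Ψ → Ψ ≤ Φ :=
    fun l => top_exists ⟨_, (mx_vals (W l) N j hN).1⟩
  choose F hF1 hF2 using hF
  let M : ℕ → ℝ := fun l => fd (W l) (F l) - θ * Module.finrank ℂ (F l)
  have hM : ∀ l, (N : ℝ) * M l = vdim (kerA (ct N j (W l))) := by
    intro l
    rw [← mx_value hN (hF1 l)]
    show (N : ℝ) * (fd (W l) (F l) - θ * Module.finrank ℂ (F l)) = _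
    rw [hjθ]
    ring
  have hint : ∀ l, ∃ n : ℕ, (d : ℝ) * (N * M l) = n := by
    intro l
    obtain ⟨n, hn⟩ := hR _ (hfree G (ctm ι N j) hG) _
      (val_of _ (coef_ct N j (coef_Tm hQ0 hQ1 l)))
    have h1 : (0 : ℝ) ≤ (d : ℝ) * vdim (kerA (ct N j (W l))) := by
      have := vdim_nonneg (kerA (ct N j (W l)))
      positivity
    have h2 : (0 : ℝ) ≤ n := by rw [← hn]; exact h1
    have h3 : 0 ≤ n := by exact_mod_cast h2
    refine ⟨n.toNat, ?_⟩
    rw [hM, hn]
    have : ((n.toNat : ℤ) : ℝ) = n := by rw [Int.toNat_of_nonneg h3]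
    exact_mod_cast this.symm
  choose n hn using hint
  have hlast : ∀ l, (Pi.single (Fin.last (l + 1)) 1 : Fin (l + 2) → ℂ) ≠ 0 := by
    intro l
    simp
  have hstep : ∀ l (Φ : Submodule ℂ (Fin (l + 2) → ℂ)),
      fd (W (l + 1)) Φ - θ * Module.finrank ℂ Φ ≤ M l ∧
      (M l ≤ fd (W (l + 1)) Φ - θ * Module.finrank ℂ Φ →
        (∀ φ ∈ Φ, r0 l φ = 0 → φ = 0) ∧ IsMx (W l) θ (Φ.map (r0 l)) ∧
        Module.finrank ℂ (Φ.map (r0 l)) = Module.finrank ℂ Φ ∧
        fd (W (l + 1)) Φ = fd (W l) (Φ.map (r0 l))) := by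
    intro l Φ
    refine mx_step (A := W (l + 1)) (B := W l) (θ := θ) (L := r0 l) ?_ (hlast l) (ker_r0 l) ?_
      (hF1 l)
    · intro x hx
      have := window Q0 Q1 l 1 0 x hx
      rwa [rr_one_zero] at this
    · show fd (BC.Tm Q0 Q1 (l + 1)) _ < θ
      rw [fd_last]
      exact hf
  have hmono : ∀ l, M (l + 1) ≤ M l := fun l => (hstep l (F (l + 1))).1
  have hd0 : (0 : ℝ) < d := by exact_mod_cast hd
  have hnmono : ∀ l, n (l + 1) ≤ n l := by
    intro l
    have : (n (l + 1) : ℝ) ≤ n l := by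
      rw [← hn, ← hn]
      have := hmono l
      gcongr
    exact_mod_cast this
  have hanti : Antitone n := antitone_nat_of_succ_le hnmono
  -- eventually constant
  obtain ⟨l0, hl0⟩ : ∃ l0, ∀ l, n l0 ≤ n l := by
    have hex : ∃ a, ∃ l, n l = a := ⟨_, 0, rfl⟩
    obtain ⟨l0, hl0⟩ := Nat.find_spec hex
    refine ⟨l0, fun l => ?_⟩
    rw [hl0]
    exact Nat.find_min' hex ⟨l, rfl⟩
  have hconst : ∀ l, l0 ≤ l → M l = M (l + 1) := by
    intro l hl
    have h1 : n l = n (l + 1) :=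
      le_antisymm ((hanti hl).trans (hl0 (l + 1))) (hnmono l)
    have h2 : (d : ℝ) * (N * M l) = d * (N * M (l + 1)) := by rw [hn, hn, h1]
    have h3 := mul_left_cancel₀ hd0.ne' h2
    exact mul_left_cancel₀ hN'.ne' h3
  have hinfo : ∀ l, l0 ≤ l → (∀ φ ∈ F (l + 1), r0 l φ = 0 → φ = 0) ∧
      IsMx (W l) θ ((F (l + 1)).map (r0 l)) ∧
      Module.finrank ℂ ((F (l + 1)).map (r0 l)) = Module.finrank ℂ (F (l + 1)) ∧
      fd (W (l + 1)) (F (l + 1)) = fd (W l) ((F (l + 1)).map (r0 l)) :=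
    fun l hl => (hstep l (F (l + 1))).2 (hconst l hl).le
  -- the ranks stabilize
  obtain ⟨l', hl'0, hl'⟩ : ∃ l', l0 ≤ l' ∧
      Module.finrank ℂ (F (l' + 1)) ≤ Module.finrank ℂ (F (l' + 1 + 1)) := by
    have hex : ∃ a, ∃ l, l0 ≤ l ∧ Module.finrank ℂ (F (l + 1)) = a := ⟨_, l0, le_rfl, rfl⟩
    obtain ⟨l', hl'0, hl'⟩ := Nat.find_spec hex
    refine ⟨l', hl'0, ?_⟩
    rw [hl']
    exact Nat.find_min' hex ⟨l' + 1, by omega, rfl⟩
  set l := l' + 1 with hl
  obtain ⟨hi1, hi2, hi3, hi4⟩ := hinfo l (by omega)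
  have hmap : (F (l + 1)).map (r0 l) = F l :=
    Submodule.eq_of_le_of_finrank_le (hF2 l _ hi2) (by omega)
  rw [hmap] at hi4
  -- inverse of the restriction
  obtain ⟨σ, hσ⟩ : ∃ σ : (Fin (l + 1) → ℂ) →ₗ[ℂ] (Fin (l + 2) → ℂ),
      ∀ φ ∈ F l, σ φ ∈ F (l + 1) ∧ r0 l (σ φ) = φ := by
    let f : F (l + 1) →ₗ[ℂ] F l := (r0 l).restrict (p := F (l + 1)) (q := F l) (by
      intro φ hφ
      rw [← hmap]
      exact Submodule.mem_map_of_mem hφ)
    have hf : Function.Surjective f := by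
      rintro ⟨φ, hφ⟩
      have h1 := hφ
      rw [← hmap] at h1
      obtain ⟨φ', h2, h3⟩ := h1
      exact ⟨⟨φ', h2⟩, Subtype.ext h3⟩
    obtain ⟨g, hg⟩ := f.exists_rightInverse_of_surjective (LinearMap.range_eq_top.2 hf)
    obtain ⟨σ, hσ⟩ := LinearMap.exists_extend ((F (l + 1)).subtype ∘ₗ g)
    refine ⟨σ, fun φ hφ => ?_⟩
    have h1 : σ φ = (g ⟨φ, hφ⟩ : Fin (l + 2) → ℂ) := by
      have := LinearMap.congr_fun hσ ⟨φ, hφ⟩
      exact this
    have h2 := LinearMap.congr_fun hg ⟨φ, hφ⟩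
    refine ⟨h1 ▸ (g ⟨φ, hφ⟩).2, ?_⟩
    rw [h1]
    exact congrArg Subtype.val h2
  have hσ' : ∀ φ ∈ F (l + 1), σ (r0 l φ) = φ := by
    intro φ hφ
    have h1 : r0 l φ ∈ F l := by
      rw [← hmap]
      exact Submodule.mem_map_of_mem hφ
    obtain ⟨h2, h3⟩ := hσ _ h1
    have h4 := hi1 (σ (r0 l φ) - φ) (Submodule.sub_mem _ h2 hφ) (by rw [map_sub, h3, sub_self])
    exact sub_eq_zero.1 h4
  -- `σ` maps the kernel at level `l` to the kernel at level `l + 1`
  have hext : ∀ x ∈ kerA (W l) ⊓ (pt (F l) : Submodule ℂ (L2 ((ι × Fin (l + 1)) × G))),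
      op (sc ι G σ) x ∈ kerA (W (l + 1)) := by
    set K : Submodule ℂ (L2 ((ι × Fin (l + 1)) × G)) := kerA (W l) ⊓ pt (F l) with hK
    set K' : Submodule ℂ (L2 ((ι × Fin (l + 2)) × G)) := kerA (W (l + 1)) ⊓ pt (F (l + 1))
      with hK'
    set K'' : Submodule ℂ (L2 ((ι × Fin (l + 1)) × G)) :=
      K ⊓ K'.comap (op (sc ι G σ) : L2 ((ι × Fin (l + 1)) × G) →ₗ[ℂ] _) with hK''
    have hKc : IsClosed (K : Set (L2 ((ι × Fin (l + 1)) × G))) := isClosed_fd (W l) (F l)
    have hK'c : IsClosed (K' : Set (L2 ((ι × Fin (l + 2)) × G))) :=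
      isClosed_fd (W (l + 1)) (F (l + 1))
    have hKi : LInv K := linv_fd (W l) (F l)
    have hK'i : LInv K' := linv_fd (W (l + 1)) (F (l + 1))
    have hK''c : IsClosed (K'' : Set (L2 ((ι × Fin (l + 1)) × G))) :=
      hKc.inter (hK'c.preimage (op (sc ι G σ)).continuous)
    have hK''i : LInv K'' := by
      apply linv_of
      intro g x hx
      refine ⟨linv_lt hKi _ hx.1, ?_⟩
      show op (sc ι G σ) (lt _ g x) ∈ K'
      rw [equi_lt (equi_op _)]
      exact linv_lt hK'i _ hx.2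
    have hv : vdim K ≤ vdim K'' := by
      have h1 : vdim K = vdim K' := hi4.symm
      rw [h1]
      refine vdim_inj_le hK'c hK'i (op (sc ι G (r0 l))) (equi_op _) hK''c ?_ ?_
      · intro x hx
        have hx1 : op (sc ι G σ) (op (sc ι G (r0 l)) x) = x := by
          ext ⟨⟨p, i⟩, g⟩
          rw [op_sc]
          have : (fun i => op (sc ι G (r0 l)) x ((p, i), g)) = r0 l (fun i => x ((p, i), g)) := by
            funext i
            rw [op_sc]
          rw [this, hσ' _ (hx.2 p g)]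
        refine ⟨⟨?_, ?_⟩, ?_⟩
        · have := window Q0 Q1 l 1 0 x hx.1
          rwa [rr_one_zero] at this
        · intro p g
          have : (fun i => op (sc ι G (r0 l)) x ((p, i), g)) = r0 l (fun i => x ((p, i), g)) := by
            funext i
            rw [op_sc]
          show (fun i => op (sc ι G (r0 l)) x ((p, i), g)) ∈ F l
          rw [this, ← hmap]
          exact Submodule.mem_map_of_mem (hx.2 p g)
        · show op (sc ι G σ) (op (sc ι G (r0 l)) x) ∈ K'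
          rw [hx1]
          exact hx
      · intro x hx h0
        have hx1 : op (sc ι G σ) (op (sc ι G (r0 l)) x) = x := by
          ext ⟨⟨p, i⟩, g⟩
          rw [op_sc]
          have : (fun i => op (sc ι G (r0 l)) x ((p, i), g)) = r0 l (fun i => x ((p, i), g)) := by
            funext i
            rw [op_sc]
          rw [this, hσ' _ (hx.2 p g)]
        rw [← hx1, h0, map_zero]
    have heq : K'' = K := eq_of_vdim hK''c hK''i hKc hKi inf_le_left hv
    intro x hx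
    rw [← heq] at hx
    exact hx.2.1
  -- the operator
  set T : (Fin (l + 1) → ℂ) →ₗ[ℂ] (Fin (l + 1) → ℂ) := (rr l (-z) 1) ∘ₗ σ with hT
  have hTk : ∀ x ∈ kerA (W l) ⊓ (pt (F l) : Submodule ℂ (L2 ((ι × Fin (l + 1)) × G))),
      op (sc ι G T) x ∈ kerA (W l) := by
    intro x hx
    rw [hT, ← op_sc_comp]
    exact window Q0 Q1 l (-z) 1 _ (hext x hx)
  have hctle : kerA (ct N j (W l)) ≤ pt (F l) :=
    (le_pt_vals _).trans (pt_mono (hF2 l _ (mx_vals (W l) N j hN).1))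
  have hct := ct_inv N j (W l) (F l) T hTk hctle
  -- the geometric windows
  have hg1 : geo z (l + 1) ∈ F (l + 1) := by
    refine mem_of_mx (hF1 (l + 1)) (geo_ne z (l + 1)) ?_
    show θ < fd (BC.Tm Q0 Q1 (l + 1)) _
    rw [fd_geo]
    exact hz
  have hg2 : σ (geo z l) = geo z (l + 1) := by
    rw [← r0_geo]
    exact hσ' _ hg1
  have hgl : fd (W l) (Submodule.span ℂ {geo z l}) = kz Q0 Q1 z := fd_geo Q0 Q1 z l'
  have hrank1 : Module.finrank ℂ (Submodule.span ℂ {geo z l}) = 1 :=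
    finrank_span_singleton (geo_ne z l)
  have hge := ct_ge N j (W l) (Submodule.span ℂ {geo z l})
  rw [hgl, hrank1] at hge
  have hpos : 0 < (N : ℝ) * kz Q0 Q1 z - j := by
    rw [div_lt_iff₀ hN'] at hz
    linarith
  have hge' : (N : ℝ) * kz Q0 Q1 z - j ≤ fd (ct N j (W l)) (Submodule.span ℂ {geo z l}) := by
    simpa using hge
  have hval : fd (ct N j (W l)) (Submodule.span ℂ {geo z l}) = N * kz Q0 Q1 z - j := by
    have h1 := ct_eq N j (W l) (Submodule.span ℂ {geo z l})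
    have h2 := vals_ct_le N j (W l) (Submodule.span ℂ {geo z l})
    set V := vals (kerA (ct N j (W l)) ⊓ pt (Submodule.span ℂ {geo z l})) with hV
    have h3 := Submodule.finrank_mono h2
    rw [hrank1] at h3
    rcases Nat.le_one_iff_eq_zero_or_eq_one.1 h3 with h4 | h4
    · have h5 : V = ⊥ := Submodule.finrank_eq_zero.1 h4
      rw [h5, fd_bot, finrank_bot] at h1
      simp only [mul_zero, Nat.cast_zero, sub_zero] at h1
      linarith
    · have h5 : V = Submodule.span ℂ {geo z l} :=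
        Submodule.eq_of_le_of_finrank_le h2 (by omega)
      rw [h1, h5, hgl, hrank1]
      simp
  have hfin := stage2 C hfree R hR (hfree G (ctm ι N j) hG)
    (ct N j (W l)) (coef_ct N j (coef_Tm hQ0 hQ1 l)) hctle T hct (geo_ne z l)
    (by
      intro φ hφ h0
      have h1 := ker_rr l z (σ φ) h0
      have h2 := (hσ φ hφ).2
      rw [h1, map_smul, r0_geo] at h2
      rw [Submodule.mem_span_singleton]
      exact ⟨_, h2⟩)
    (by
      show rr l (-z) 1 (σ (geo z l)) = 0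
      rw [hg2, rr_geo])
    (by rw [hval]; exact hpos)
  rw [hval] at hfin
  exact hfin



/-- **Rationality along a pencil.** -/
theorem pencil_rat (C : (G : Type) → [Group G] → Prop)
    (hfree : ∀ (G : Type) [Group G] (m : ℕ), C G → C (Monoid.Coprod G (FreeGroup (Fin m))))
    (R : Subring ℂ) {d : ℕ} (hd : 0 < d)
    (hR : ∀ (G : Type) [Group G], C G → ∀ v : ℝ, Val R G v → ∃ z : ℤ, (d : ℝ) * v = z)
    (hG : C G) (P0 P1 : GMat κ ι G) (hP0 : Coef R P0) (hP1 : Coef R P1)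
    (z : ℂ) : ∃ q : ℚ, kz P0 P1 z = q := by
  have hd0 : (0 : ℝ) < d := by exact_mod_cast hd
  have hv0 : 0 ≤ kz P0 P1 z := vdim_nonneg _
  by_cases hno : ∃ n : ℤ, (d : ℝ) * kz P0 P1 z = n
  · obtain ⟨n, hn⟩ := hno
    refine ⟨n / d, ?_⟩
    push_cast
    rw [← hn]
    field_simp
  push Not at hno
  -- an integer point with a smaller kernel
  have h1 : ∃ a : ℤ, (a : ℂ) ≠ z ∧ kz P0 P1 a < kz P0 P1 z := by
    by_contra hc
    push Not at hc
    set b0 : ℝ := (⌈(d : ℝ) * kz P0 P1 z⌉ : ℝ) / d with hb0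
    have h2 : ∀ a : ℤ, (a : ℂ) ≠ z → b0 ≤ kz P0 P1 a := by
      intro a ha
      have h3 := hc a ha
      obtain ⟨n, hn⟩ := hR G hG _ (val_of _ (coef_pen hP0 hP1 (a := (a : ℂ)) (by
        exact intCast_mem R a)))
      have h4 : (d : ℝ) * kz P0 P1 z ≤ n := by
        rw [← hn]
        unfold kz at h3 ⊢
        gcongr
      have h5 : ⌈(d : ℝ) * kz P0 P1 z⌉ ≤ n := Int.ceil_le.2 h4
      rw [hb0, div_le_iff₀ hd0]
      have h6 : (⌈(d : ℝ) * kz P0 P1 z⌉ : ℝ) ≤ n := by exact_mod_cast h5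
      unfold kz at h6 ⊢
      linarith
    have h3 : {a : ℂ | b0 ≤ kz P0 P1 a}.Infinite := by
      have h4 : (Set.range (fun n : ℤ => (n : ℂ)) \ {z}).Infinite :=
        (Set.infinite_range_of_injective Int.cast_injective).sdiff (Set.finite_singleton z)
      refine h4.mono ?_
      rintro _ ⟨⟨a, rfl⟩, ha⟩
      exact h2 a (fun h => ha h)
    have h4 := semicont P0 P1 b0 h3 z
    rw [hb0, div_le_iff₀ hd0] at h4
    have h5 := Int.le_ceil ((d : ℝ) * kz P0 P1 z)
    exact hno _ (le_antisymm h5 (by linarith))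
  obtain ⟨a, ha, hlt⟩ := h1
  have hza : z - a ≠ 0 := sub_ne_zero.2 (Ne.symm ha)
  have hmem : (a : ℂ) ∈ R := intCast_mem R a
  obtain ⟨N, hN, hN2⟩ := exists_frac (vdim_nonneg _ : 0 ≤ kz P0 P1 a) hlt
  obtain ⟨j, hj1, hj2⟩ := hN2 N le_rfl
  obtain ⟨m, hm, n, hn⟩ := stage1 C hfree R hd hR hG P1 (BC.pen P0 P1 a) hP1
    (coef_pen hP0 hP1 hmem) (z - a)⁻¹ hN hj1 (by rw [kz_move _ _ _ _ hza]; exact hj2)
  rw [kz_move _ _ _ _ hza] at hn
  refine ⟨((n : ℚ) / (d * m) + j) / N, ?_⟩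
  have hm0 : (m : ℝ) ≠ 0 := by
    have : (0 : ℝ) < m := by exact_mod_cast hm
    exact this.ne'
  have hN0 : (N : ℝ) ≠ 0 := by exact_mod_cast hN.ne'
  push_cast
  rw [← hn]
  field_simp
  ring

/-- **Adjoining one element: rationality.** -/
theorem adjoin_rat (C : (G : Type) → [Group G] → Prop)
    (hfree : ∀ (G : Type) [Group G] (m : ℕ), C G → C (Monoid.Coprod G (FreeGroup (Fin m))))
    (R : Subring ℂ) {d : ℕ} (hd : 0 < d)
    (hR : ∀ (G : Type) [Group G], C G → ∀ v : ℝ, Val R G v → ∃ z : ℤ, (d : ℝ) * v = z) (z : ℂ) :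
    ∀ (G : Type) [Group G], C G → ∀ v : ℝ,
      Val (Polynomial.eval₂RingHom R.subtype z).range G v → ∃ q : ℚ, v = q := by
  classical
  intro G _ hG v hv
  obtain ⟨m, n, A, hA, rfl⟩ := hv
  -- the polynomials
  have h1 : ∀ (k : Fin n) (p : Fin m) (g : G), ∃ q : Polynomial R,
      q.eval₂ R.subtype z = A k p g ∧ (A k p g = 0 → q = 0) := by
    intro k p g
    by_cases h0 : A k p g = 0
    · exact ⟨0, by rw [h0, Polynomial.eval₂_zero], fun _ => rfl⟩
    · obtain ⟨q, hq⟩ := hA k p g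
      exact ⟨q, hq, fun h => absurd h h0⟩
  choose q hq1 hq2 using h1
  set D : ℕ := ∑ k, ∑ p, ∑ g ∈ (A k p).support, (q k p g).natDegree with hD
  have hdeg : ∀ k p g, (q k p g).natDegree < D + 1 := by
    intro k p g
    by_cases h0 : A k p g = 0
    · rw [hq2 k p g h0]
      simp
    · have h2 : g ∈ (A k p).support := Finsupp.mem_support_iff.2 h0
      have e1 := Finset.single_le_sum (f := fun g => (q k p g).natDegree)
        (fun _ _ => Nat.zero_le _) h2
      have e2 := Finset.single_le_sum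
        (f := fun p => ∑ g ∈ (A k p).support, (q k p g).natDegree)
        (fun _ _ => Nat.zero_le _) (Finset.mem_univ p)
      have e3 := Finset.single_le_sum
        (f := fun k => ∑ p, ∑ g ∈ (A k p).support, (q k p g).natDegree)
        (fun _ _ => Nat.zero_le _) (Finset.mem_univ k)
      exact Nat.lt_succ_of_le ((e1.trans e2).trans e3)
  let B : GMat (Fin n) (Fin m × Fin (D + 1)) G := fun k p =>
    Finsupp.onFinset (A k p.1).support (fun g => (((q k p.1 g).coeff p.2 : R) : ℂ)) (by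
      intro g hg
      rw [Finsupp.mem_support_iff]
      intro h0
      apply hg
      rw [hq2 k p.1 g h0]
      simp)
  have hB : Coef R B := by
    intro k p g
    exact ((q k p.1 g).coeff p.2).2
  have hev : ev (geo z D) B = A := by
    funext k p
    ext g
    unfold ev
    rw [Finsupp.finsetSum_apply, ← hq1 k p g, Polynomial.eval₂_eq_sum_range' _ (hdeg k p g),
      Finset.sum_range]
    refine Finset.sum_congr rfl fun i _ => ?_
    rw [Finsupp.smul_apply, smul_eq_mul, mul_comm]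
    rfl
  obtain ⟨r, hr⟩ := pencil_rat C hfree R hd hR hG (cp0 B) (cp1 (Fin n) (Fin m) G D)
    (coef_cp0 hB) (coef_cp1 D) z
  rw [kz_cp, hev] at hr
  exact ⟨r, hr⟩

end Pool.Agent.K3h37.UD
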