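import Pool.Agent.K3h37.UD.Coord

/-!
# Eigenvalues of pencils over a maximal coefficient ring are integral over it
-/

set_option autoImplicit false
set_option linter.unusedSectionVars false

open scoped InnerProductSpace ENNReal
open Filter Topology

namespace Pool.Agent.K3h37.UD

open Pool.Agent.H80R2
open Pool.Agent.H80R2.BC (L2 GMat vdim IsTr LInv Equi act kerA dk pt vals TorDiv Coef AtR Generic)
open Pool.Agent.H812R3
open Pool.Agent.W656.VA hiding stage1 stage2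

variable {ι κ ι' κ' μ ν G : Type} [Group G] [Fintype ι] [Fintype κ] [Fintype κ'] [Fintype ι']
  [Fintype μ] [Fintype ν]

/-- **Exceptional parameters satisfy a monic equation** whose coefficients are of the type `PInt`. -/
theorem exc_eq (C : (G : Type) → [Group G] → Prop)
    (hfree : ∀ (G : Type) [Group G] (m : ℕ), C G → C (Monoid.Coprod G (FreeGroup (Fin m))))
    (hjoin : ∀ (G G' : Type) [Group G] [Group G'], C G → C G' → ∃ (Γ : Type) (_ : Group Γ), C Γ ∧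
      (∃ f : G →* Γ, Function.Injective f) ∧ ∃ f : G' →* Γ, Function.Injective f)
    (R : Subring ℂ) {d : ℕ} (hd : 0 < d)
    (hR : ∀ (G : Type) [Group G], C G → ∀ v : ℝ, Val R G v → ∃ z : ℤ, (d : ℝ) * v = z)
    (hG : C G) (Q0 Q1 : GMat κ ι G) (hQ0 : Coef R Q0) (hQ1 : Coef R Q1)
    (z : ℂ) {N j : ℕ} (hN : 0 < N) (hf : vdim (kerA Q1) < (j : ℝ) / N)
    (hz : (j : ℝ) / N < kz Q0 Q1 z) :
    ∃ (n : ℕ) (J : Finset ℕ) (c : ℕ → ℂ), (∀ k ∈ J, k < n) ∧ (∀ k ∈ J, PInt C R d (c k)) ∧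
      z ^ n = ∑ k ∈ J, z ^ k * c k := by
  classical
  have hN' : (0 : ℝ) < N := by exact_mod_cast hN
  set θ : ℝ := (j : ℝ) / N with hθ
  have hjθ : (j : ℝ) = N * θ := by rw [hθ]; field_simp
  let W : (l : ℕ) → GMat (κ × Fin l) (ι × Fin (l + 1)) G := fun l => BC.Tm Q0 Q1 l
  -- top maximizers
  have hF : ∀ l, ∃ Φ, IsMx (W l) θ Φ ∧ ∀ Ψ, IsMx (W l) θ Ψ → Ψ ≤ Φ :=
    fun l => top_exists ⟨_, (mx_vals (W l) N j hN).1⟩
  choose F hF1 hF2 using hF
  let M : ℕ → ℝ := fun l => fd (W l) (F l) - θ * Module.finrank ℂ (F l)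
  have hM : ∀ l, (N : ℝ) * M l = vdim (kerA (ct N j (W l))) := by
    intro l
    rw [← mx_value hN (hF1 l)]
    show (N : ℝ) * (fd (W l) (F l) - θ * Module.finrank ℂ (F l)) = _
    rw [hjθ]
    ring
  have hint : ∀ l, ∃ n : ℕ, (d : ℝ) * (N * M l) = n := by
    intro l
    obtain ⟨n, hn⟩ := hR _ (hfree G (ctm ι N j) hG) _
      (val_of _ (coef_ct N j (coef_Tm hQ0 hQ1 l)))
    have h1 : (0 : ℝ) ≤ (d : ℝ) * vdim (kerA (ct N j (W l))) := by
      have := vdim_nonneg (kerA (ct N j (W l)))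
      positivity
    have h2 : (0 : ℝ) ≤ n := by rw [← hn]; exact h1
    have h3 : 0 ≤ n := by exact_mod_cast h2
    refine ⟨n.toNat, ?_⟩
    rw [hM, hn]
    have : ((n.toNat : ℤ) : ℝ) = n := by rw [Int.toNat_of_nonneg h3]
    exact_mod_cast this.symm
  choose n hn using hint
  have hlast : ∀ l, (Pi.single (Fin.last (l + 1)) 1 : Fin (l + 2) → ℂ) ≠ 0 := by
    intro l
    simp
  have hstep : ∀ l (Φ : Submodule ℂ (Fin (l + 2) → ℂ)),
      fd (W (l + 1)) Φ - θ * Module.finrank ℂ Φ ≤ M l ∧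
      (M l ≤ fd (W (l + 1)) Φ - θ * Module.finrank ℂ Φ →
        (∀ φ ∈ Φ, r0 l φ = 0 → φ = 0) ∧ IsMx (W l) θ (Φ.map (r0 l)) ∧
        Module.finrank ℂ (Φ.map (r0 l)) = Module.finrank ℂ Φ ∧
        fd (W (l + 1)) Φ = fd (W l) (Φ.map (r0 l))) := by
    intro l Φ
    refine mx_step (A := W (l + 1)) (B := W l) (θ := θ) (L := r0 l) ?_ (hlast l) (ker_r0 l) ?_
      (hF1 l)
    · intro x hx
      have := window Q0 Q1 l 1 0 x hx
      rwa [rr_one_zero] at this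
    · show fd (BC.Tm Q0 Q1 (l + 1)) _ < θ
      rw [fd_last]
      exact hf
  have hmono : ∀ l, M (l + 1) ≤ M l := fun l => (hstep l (F (l + 1))).1
  have hd0 : (0 : ℝ) < d := by exact_mod_cast hd
  have hnmono : ∀ l, n (l + 1) ≤ n l := by
    intro l
    have : (n (l + 1) : ℝ) ≤ n l := by
      rw [← hn, ← hn]
      have := hmono l
      gcongr
    exact_mod_cast this
  have hanti : Antitone n := antitone_nat_of_succ_le hnmono
  -- eventually constant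
  obtain ⟨l0, hl0⟩ : ∃ l0, ∀ l, n l0 ≤ n l := by
    have hex : ∃ a, ∃ l, n l = a := ⟨_, 0, rfl⟩
    obtain ⟨l0, hl0⟩ := Nat.find_spec hex
    refine ⟨l0, fun l => ?_⟩
    rw [hl0]
    exact Nat.find_min' hex ⟨l, rfl⟩
  have hconst : ∀ l, l0 ≤ l → M l = M (l + 1) := by
    intro l hl
    have h1 : n l = n (l + 1) :=
      le_antisymm ((hanti hl).trans (hl0 (l + 1))) (hnmono l)
    have h2 : (d : ℝ) * (N * M l) = d * (N * M (l + 1)) := by rw [hn, hn, h1]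
    have h3 := mul_left_cancel₀ hd0.ne' h2
    exact mul_left_cancel₀ hN'.ne' h3
  have hinfo : ∀ l, l0 ≤ l → (∀ φ ∈ F (l + 1), r0 l φ = 0 → φ = 0) ∧
      IsMx (W l) θ ((F (l + 1)).map (r0 l)) ∧
      Module.finrank ℂ ((F (l + 1)).map (r0 l)) = Module.finrank ℂ (F (l + 1)) ∧
      fd (W (l + 1)) (F (l + 1)) = fd (W l) ((F (l + 1)).map (r0 l)) :=
    fun l hl => (hstep l (F (l + 1))).2 (hconst l hl).le
  -- the maximizer `F (l0 + 1)`
  obtain ⟨hi1, -⟩ := hinfo l0 le_rfl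
  have hθ0 : 0 < θ := lt_of_le_of_lt (vdim_nonneg _) hf
  obtain ⟨θ0, hθ00, hθ01, hpiece⟩ := top_piece hθ0 (hF1 (l0 + 1)) (hF2 (l0 + 1))
  have hg1 : geo z (l0 + 1) ∈ F (l0 + 1) := by
    refine mem_of_mx (hF1 (l0 + 1)) (geo_ne z (l0 + 1)) ?_
    show θ < fd (BC.Tm Q0 Q1 (l0 + 1)) _
    rw [fd_geo]
    exact hz
  obtain ⟨J', hJ1, hJ2, ψ, hψ⟩ := exists_coords (F (l0 + 1))
    ((Finset.univ : Finset (Fin (l0 + 1))).image Fin.castSucc) (by
      intro φ hφ h0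
      apply hi1 φ hφ
      funext i
      exact h0 _ (Finset.mem_image_of_mem _ (Finset.mem_univ i)))
  have hlt : ∀ k ∈ J', (k : ℕ) < l0 + 1 := by
    intro k hk
    obtain ⟨i, -, rfl⟩ := Finset.mem_image.1 (hJ1 hk)
    exact i.2
  have hne : ∀ k ∈ J', ψ k ≠ 0 := by
    intro k hk h0
    have := (hψ k hk).2.1
    rw [h0] at this
    exact zero_ne_one this
  have hP : ∀ k ∈ J', PInt C R d (ψ k (Fin.last (l0 + 1))) := by
    intro k hk
    exact coord_pint C hfree hjoin R hR hG (coef_Tm hQ0 hQ1 (l0 + 1)) hθ00 hθ01 hpiece (J'.erase k)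
      (hne k hk) (coords_line hJ2 hψ hk) (i1 := k) (hψ k hk).2.1 rfl
  let c : ℕ → ℂ := fun n => if h : n < l0 + 1 + 1 then ψ ⟨n, h⟩ (Fin.last (l0 + 1)) else 0
  have hc : ∀ k : Fin (l0 + 1 + 1), c k = ψ k (Fin.last (l0 + 1)) := fun k => dif_pos k.2
  refine ⟨l0 + 1, J'.image Fin.val, c, ?_, ?_, ?_⟩
  · intro k hk
    obtain ⟨i, hi, rfl⟩ := Finset.mem_image.1 hk
    exact hlt i hi
  · intro k hk
    obtain ⟨i, hi, rfl⟩ := Finset.mem_image.1 hk
    rw [hc]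
    exact hP i hi
  · have h1 := coords_expand hJ2 hψ hg1
    have h2 := congrFun h1 (Fin.last (l0 + 1))
    rw [Finset.sum_apply] at h2
    have h3 : geo z (l0 + 1) (Fin.last (l0 + 1)) = z ^ (l0 + 1) := rfl
    rw [h3] at h2
    rw [h2, Finset.sum_image (fun a _ b _ hab => Fin.ext hab)]
    refine Finset.sum_congr rfl fun k _ => ?_
    rw [hc]
    rfl

end Pool.Agent.K3h37.UD
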